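import Pool.Agent.Lib.MP_8daebb_an.Trace

/-! The monotonicity inequality and lower mass bounds. -/

set_option linter.unusedSectionVars false

open MeasureTheory Metric Filter Topology Set
open scoped RealInnerProductSpace

namespace Pool.Agent.Lib.MP_8daebb_an

variable {E : Type*} [NormedAddCommGroup E] [InnerProductSpace ℝ E] [FiniteDimensional ℝ E]
  [MeasurableSpace E] [BorelSpace E]

/-- decreasing smooth cutoff: `1` on `(-∞, 1 - δ]`, `0` on `[1, ∞)` -/
noncomputable def cut (δ u : ℝ) : ℝ := Real.smoothTransition ((1 - u) / δ)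

lemma cut_contDiff (δ : ℝ) : ContDiff ℝ 2 (cut δ) :=
  Real.smoothTransition.contDiff.comp (by fun_prop)

lemma cut_antitone {δ : ℝ} (hδ : 0 < δ) : Antitone (cut δ) := fun a b hab =>
  Real.smoothTransition.monotone (by gcongr)

lemma cut_zero {δ u : ℝ} (hδ : 0 < δ) (hu : 1 ≤ u) : cut δ u = 0 :=
  Real.smoothTransition.zero_of_nonpos (div_nonpos_of_nonpos_of_nonneg (by linarith) hδ.le)

lemma cut_one {δ u : ℝ} (hδ : 0 < δ) (hu : u ≤ 1 - δ) : cut δ u = 1 :=
  Real.smoothTransition.one_of_one_le (by rw [le_div_iff₀ hδ]; linarith)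

lemma cut_nonneg (δ u : ℝ) : 0 ≤ cut δ u := Real.smoothTransition.nonneg _

lemma cut_le_one (δ u : ℝ) : cut δ u ≤ 1 := Real.smoothTransition.le_one _

lemma cut_hasDerivAt (δ u : ℝ) : HasDerivAt (cut δ) (deriv (cut δ) u) u :=
  ((cut_contDiff δ).differentiable (by norm_num) u).hasDerivAt

lemma cut_deriv_nonpos {δ : ℝ} (hδ : 0 < δ) (u : ℝ) : deriv (cut δ) u ≤ 0 :=
  (cut_antitone hδ).deriv_nonpos

lemma cut_deriv_zero {δ u : ℝ} (hδ : 0 < δ) (hu : 1 < u) : deriv (cut δ) u = 0 := by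
  have : cut δ =ᶠ[𝓝 u] fun _ => 0 := by
    filter_upwards [Ioi_mem_nhds hu] with v hv
    exact cut_zero hδ (le_of_lt hv)
  rw [this.deriv_eq, deriv_const]

lemma cut_deriv_continuous (δ : ℝ) : Continuous (deriv (cut δ)) :=
  (cut_contDiff δ).continuous_deriv (by norm_num)

lemma cut_deriv_bound {δ : ℝ} (M : ℝ) : ∃ C, ∀ u ∈ Icc 0 M, |deriv (cut δ) u| ≤ C := by
  obtain ⟨C, hC⟩ := isCompact_Icc.exists_bound_of_continuousOn
    (cut_deriv_continuous δ).continuousOn (s := Icc 0 M)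
  exact ⟨C, hC⟩

/-- the smoothed mass -/
noncomputable def sm (V : Measure (E × (E →L[ℝ] E))) (x : E) (δ s : ℝ) : ℝ :=
  ∫ z, cut δ (‖z.1 - x‖ ^ 2 / s ^ 2) ∂V

lemma one_lt_ratio {y x : E} {s s₁ : ℝ} (hs : 0 < s) (hs₁ : s ≤ s₁) (hy : y ∉ closedBall x s₁) :
    1 < ‖y - x‖ ^ 2 / s ^ 2 := by
  rw [mem_closedBall, dist_eq_norm, not_le] at hy
  rw [one_lt_div (by positivity)]
  have : s < ‖y - x‖ := by linarith
  gcongr

variable {m : ℕ} {U : Set E} {V : Measure (E × (E →L[ℝ] E))}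

lemma IsStationaryVarifold.integrable_cut (hV : IsStationaryVarifold m U V) {x : E} {δ s : ℝ}
    (hδ : 0 < δ) (hs : 0 < s) (hU : closedBall x s ⊆ U) :
    Integrable (fun z : E × (E →L[ℝ] E) => cut δ (‖z.1 - x‖ ^ 2 / s ^ 2)) V := by
  refine hV.integrable_of_bound (isCompact_closedBall x s) hU
    (Continuous.aestronglyMeasurable ((cut_contDiff δ).continuous.comp (by fun_prop))) 1
    (fun z _ => by rw [abs_of_nonneg (cut_nonneg _ _)]; exact cut_le_one _ _)
    (fun z hz => cut_zero hδ (one_lt_ratio hs le_rfl hz).le)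

lemma IsStationaryVarifold.sm_hasDerivAt (hV : IsStationaryVarifold m U V) {x : E} {δ R s : ℝ}
    (hδ : 0 < δ) (hU : ball x R ⊆ U) (hs : 0 < s) (hsR : s < R) :
    Integrable (fun z : E × (E →L[ℝ] E) =>
      deriv (cut δ) (‖z.1 - x‖ ^ 2 / s ^ 2) * (-2 * ‖z.1 - x‖ ^ 2 / s ^ 3)) V ∧
    HasDerivAt (sm V x δ) (∫ z, deriv (cut δ) (‖z.1 - x‖ ^ 2 / s ^ 2) *
      (-2 * ‖z.1 - x‖ ^ 2 / s ^ 3) ∂V) s := by
  obtain ⟨s₁, h1, h2⟩ := exists_between hsR
  have hK : closedBall x s₁ ⊆ U := (closedBall_subset_ball h2).trans hU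
  obtain ⟨C, hC⟩ := cut_deriv_bound (δ := δ) (s₁ ^ 2 / (s / 2) ^ 2)
  have hC0 : 0 ≤ C := (abs_nonneg _).trans (hC 0 ⟨le_rfl, by positivity⟩)
  have hm : MeasurableSet (Prod.fst ⁻¹' closedBall x s₁ : Set (E × (E →L[ℝ] E))) :=
    measurable_fst measurableSet_closedBall
  have hfin : V (Prod.fst ⁻¹' closedBall x s₁) < ⊤ := by
    have := hV.radon _ (isCompact_closedBall x s₁) hK
    rwa [Measure.fst_apply measurableSet_closedBall] at this
  refine hasDerivAt_integral_of_dominated_loc_of_deriv_le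
    (F := fun (s : ℝ) (z : E × (E →L[ℝ] E)) => cut δ (‖z.1 - x‖ ^ 2 / s ^ 2))
    (F' := fun (s : ℝ) (z : E × (E →L[ℝ] E)) => deriv (cut δ) (‖z.1 - x‖ ^ 2 / s ^ 2) *
      (-2 * ‖z.1 - x‖ ^ 2 / s ^ 3))
    (bound := (Prod.fst ⁻¹' closedBall x s₁ : Set (E × (E →L[ℝ] E))).indicator
      fun _ => C * (2 * s₁ ^ 2 / (s / 2) ^ 3))
    (Ioo_mem_nhds (half_lt_self hs) h1) ?_
    (hV.integrable_cut hδ hs ((closedBall_subset_closedBall h1.le).trans hK)) ?_ ?_
    ((integrable_indicator_iff hm).mpr (integrableOn_const hfin.ne)) ?_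
  · exact Eventually.of_forall fun t =>
      Continuous.aestronglyMeasurable ((cut_contDiff δ).continuous.comp (by fun_prop))
  · exact Continuous.aestronglyMeasurable
      (((cut_deriv_continuous δ).comp (by fun_prop)).mul (by fun_prop))
  · refine Eventually.of_forall fun z t ht => ?_
    have ht0 : 0 < t := (half_pos hs).trans ht.1
    by_cases hz : z.1 ∈ closedBall x s₁
    · rw [Set.indicator_of_mem (by exact hz), Real.norm_eq_abs, abs_mul]
      have hz' : ‖z.1 - x‖ ≤ s₁ := by rwa [mem_closedBall, dist_eq_norm] at hz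
      have h3 := ht.1
      refine mul_le_mul (hC _ ⟨by positivity, by gcongr⟩) ?_ (abs_nonneg _) hC0
      rw [abs_div, abs_mul, abs_of_nonneg (by positivity : 0 ≤ ‖z.1 - x‖ ^ 2),
        abs_of_pos (by positivity : 0 < t ^ 3), abs_neg, abs_two]
      gcongr
    · rw [Set.indicator_of_notMem (by exact hz), cut_deriv_zero hδ (one_lt_ratio ht0 ht.2.le hz)]
      simp
  · refine Eventually.of_forall fun z t ht => ?_
    have ht0 : 0 < t := (half_pos hs).trans ht.1
    have h3 : HasDerivAt (fun t : ℝ => ‖z.1 - x‖ ^ 2 / t ^ 2) (-2 * ‖z.1 - x‖ ^ 2 / t ^ 3) t := by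
      have := (hasDerivAt_const t (‖z.1 - x‖ ^ 2)).div (hasDerivAt_pow 2 t) (by positivity)
      refine this.congr_deriv ?_
      simp only [Nat.cast_ofNat, Nat.add_one_sub_one, pow_one]
      field_simp
      ring
    exact (cut_hasDerivAt δ _).comp t h3

lemma IsStationaryVarifold.sm_ineq (hV : IsStationaryVarifold m U V) {x : E} {δ R s : ℝ}
    (hδ : 0 < δ) (hU : ball x R ⊆ U) (hs : 0 < s) (hsR : s < R) :
    m * sm V x δ s ≤ s * ∫ z, deriv (cut δ) (‖z.1 - x‖ ^ 2 / s ^ 2) *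
      (-2 * ‖z.1 - x‖ ^ 2 / s ^ 3) ∂V := by
  have hK : closedBall x s ⊆ U := (closedBall_subset_ball hsR).trans hU
  let X : E → E := fun y => cut δ (‖y - x‖ ^ 2 / s ^ 2) • (y - x)
  have hn : ContDiff ℝ 1 fun y : E => ‖y - x‖ ^ 2 / s ^ 2 :=
    ((contDiff_id.sub contDiff_const).norm_sq ℝ).div_const _
  have hX : ContDiff ℝ 1 X :=
    (((cut_contDiff δ).of_le (by norm_num)).comp hn).smul (contDiff_id.sub contDiff_const)
  have hsupp : tsupport X ⊆ closedBall x s := by
    refine closure_minimal (fun y hy => ?_) isClosed_closedBall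
    by_contra hy'
    apply hy
    simp only [X, cut_zero hδ (one_lt_ratio hs le_rfl hy').le, zero_smul]
  have hc : HasCompactSupport X :=
    (isCompact_closedBall x s).of_isClosed_subset (isClosed_tsupport _) hsupp
  have h0 := hV.stationary X hX hc (hsupp.trans hK)
  have hi1 := hV.integrable_cut hδ hs hK
  have hi2 := (hV.sm_hasDerivAt hδ hU hs hsR).1
  have hle : ∫ z, (m * cut δ (‖z.1 - x‖ ^ 2 / s ^ 2) - s * (deriv (cut δ) (‖z.1 - x‖ ^ 2 / s ^ 2) *
      (-2 * ‖z.1 - x‖ ^ 2 / s ^ 3))) ∂V ≤ ∫ z, tanDiv X z ∂V := by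
    refine integral_mono_ae ((hi1.const_mul _).sub (hi2.const_mul _))
      (hV.integrable_tanDiv hX hc (hsupp.trans hK)) ?_
    filter_upwards [hV.carried] with z hz
    obtain ⟨e, he, ht⟩ := hz.2.exists_frame
    have hd1 : HasFDerivAt (fun y : E => y - x) (ContinuousLinearMap.id ℝ E) z.1 :=
      (hasFDerivAt_id z.1).sub_const x
    have hd2 := (cut_hasDerivAt δ _).comp_hasFDerivAt z.1 (hd1.norm_sq.mul_const (s ^ 2)⁻¹)
    have hd3 := hd2.smul hd1
    have hX' : X = (cut δ ∘ fun y : E => ‖y - x‖ ^ 2 * (s ^ 2)⁻¹) • fun y : E => y - x := by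
      ext y
      simp [X, div_eq_mul_inv]
    rw [tanDiv, ht, hX', hd3.fderiv]
    have hb := he.sum_inner_products_le (z.1 - x) (s := Finset.univ)
    have e1 : ∀ i, ⟪e i, ((cut δ ∘ fun y : E => ‖y - x‖ ^ 2 * (s ^ 2)⁻¹) z.1 •
        ContinuousLinearMap.id ℝ E + (deriv (cut δ) (‖z.1 - x‖ ^ 2 * (s ^ 2)⁻¹) • (s ^ 2)⁻¹ •
          2 • (innerSL ℝ (z.1 - x)).comp (ContinuousLinearMap.id ℝ E)).smulRight (z.1 - x)) (e i)⟫ =
        cut δ (‖z.1 - x‖ ^ 2 / s ^ 2) + deriv (cut δ) (‖z.1 - x‖ ^ 2 / s ^ 2) * (2 / s ^ 2) *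
          ‖⟪e i, z.1 - x⟫‖ ^ 2 := by
      intro i
      have h1 : ⟪e i, e i⟫ = 1 := by rw [real_inner_self_eq_norm_sq, he.1 i]; norm_num
      simp only [add_apply, smul_apply,
        ContinuousLinearMap.id_apply, ContinuousLinearMap.smulRight_apply, inner_add_right,
        inner_smul_right, h1, Function.comp_apply, ContinuousLinearMap.comp_apply,
        innerSL_apply_apply, smul_eq_mul, Real.norm_eq_abs, sq_abs, nsmul_eq_mul,
        real_inner_comm (e i) (z.1 - x), div_eq_mul_inv]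
      push_cast
      ring
    rw [Finset.sum_congr rfl fun i _ => e1 i, Finset.sum_add_distrib, ← Finset.mul_sum]
    simp only [Finset.sum_const, Finset.card_univ, Fintype.card_fin, nsmul_eq_mul]
    have h4 : deriv (cut δ) (‖z.1 - x‖ ^ 2 / s ^ 2) * (2 / s ^ 2) ≤ 0 :=
      mul_nonpos_of_nonpos_of_nonneg (cut_deriv_nonpos hδ _) (by positivity)
    have h5 := mul_le_mul_of_nonpos_left hb h4
    have h6 : s * (deriv (cut δ) (‖z.1 - x‖ ^ 2 / s ^ 2) * (-2 * ‖z.1 - x‖ ^ 2 / s ^ 3)) =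
        -(deriv (cut δ) (‖z.1 - x‖ ^ 2 / s ^ 2) * (2 / s ^ 2) * ‖z.1 - x‖ ^ 2) := by
      field_simp
    rw [h6]
    linarith
  rw [h0, integral_sub (hi1.const_mul _) (hi2.const_mul _), integral_const_mul,
    integral_const_mul] at hle
  unfold sm
  linarith

lemma IsStationaryVarifold.sm_mono (hV : IsStationaryVarifold m U V) {x : E} {δ R : ℝ}
    (hδ : 0 < δ) (hU : ball x R ⊆ U) :
    MonotoneOn (fun s => sm V x δ s / s ^ m) (Ioo 0 R) := by
  have hd : ∀ s ∈ Ioo 0 R, ∃ d, 0 ≤ d ∧ HasDerivAt (fun s => sm V x δ s / s ^ m) d s := by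
    intro s hs
    have h1 := (hV.sm_hasDerivAt hδ hU hs.1 hs.2).2
    have h2 := hV.sm_ineq hδ hU hs.1 hs.2
    have hs0 := hs.1
    refine ⟨_, ?_, h1.div (hasDerivAt_pow m s) (by positivity)⟩
    refine div_nonneg ?_ (by positivity)
    cases m with
    | zero =>
      simp only [Nat.cast_zero, zero_mul, pow_zero, mul_one, mul_zero, sub_zero] at h2 ⊢
      exact nonneg_of_mul_nonneg_right h2 hs0 |> fun h => by
        by_contra hneg
        push Not at hneg
        nlinarith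
    | succ k =>
      simp only [Nat.add_sub_cancel]
      have h3 := mul_le_mul_of_nonneg_right h2 (by positivity : 0 ≤ s ^ k)
      rw [pow_succ s k]
      nlinarith
  refine monotoneOn_of_deriv_nonneg (convex_Ioo 0 R) (fun s hs => ?_) (fun s hs => ?_)
    (fun s hs => ?_)
  · obtain ⟨d, -, h⟩ := hd s hs
    exact h.continuousAt.continuousWithinAt
  · rw [interior_Ioo] at hs
    obtain ⟨d, -, h⟩ := hd s hs
    exact h.differentiableAt.differentiableWithinAt
  · rw [interior_Ioo] at hs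
    obtain ⟨d, h0, h⟩ := hd s hs
    rwa [h.deriv]

lemma IsStationaryVarifold.ball_lt_top (hV : IsStationaryVarifold m U V) {x : E} {s : ℝ}
    (hU : closedBall x s ⊆ U) : V.fst (ball x s) < ⊤ :=
  (measure_mono ball_subset_closedBall).trans_lt (hV.radon _ (isCompact_closedBall x s) hU)

lemma IsStationaryVarifold.sm_le (hV : IsStationaryVarifold m U V) {x : E} {δ s : ℝ}
    (hδ : 0 < δ) (hs : 0 < s) (hU : closedBall x s ⊆ U) :
    sm V x δ s ≤ (V.fst (ball x s)).toReal := by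
  have hm : MeasurableSet (Prod.fst ⁻¹' ball x s : Set (E × (E →L[ℝ] E))) :=
    measurable_fst measurableSet_ball
  have hfin := hV.ball_lt_top hU
  rw [Measure.fst_apply measurableSet_ball] at hfin ⊢
  rw [← measureReal_def, ← integral_indicator_one hm]
  refine integral_mono (hV.integrable_cut hδ hs hU)
    ((integrable_indicator_iff hm).mpr (integrableOn_const hfin.ne)) fun z => ?_
  by_cases hz : z.1 ∈ ball x s
  · rw [Set.indicator_of_mem (by exact hz)]
    exact cut_le_one _ _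
  · rw [Set.indicator_of_notMem (by exact hz)]
    rw [mem_ball, dist_eq_norm, not_lt] at hz
    refine (cut_zero hδ ?_).le
    rw [one_le_div (by positivity)]
    gcongr

lemma IsStationaryVarifold.le_sm (hV : IsStationaryVarifold m U V) {x : E} {κ s : ℝ}
    (hκ : 0 < κ) (hκ1 : κ < 1) (hs : 0 < s) (hU : closedBall x s ⊆ U) :
    (V.fst (ball x (κ * s))).toReal ≤ sm V x (1 - κ ^ 2) s := by
  have hδ : 0 < 1 - κ ^ 2 := by nlinarith
  have hm : MeasurableSet (Prod.fst ⁻¹' ball x (κ * s) : Set (E × (E →L[ℝ] E))) :=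
    measurable_fst measurableSet_ball
  have hfin := hV.ball_lt_top (x := x) (s := κ * s)
    ((closedBall_subset_closedBall (by nlinarith)).trans hU)
  rw [Measure.fst_apply measurableSet_ball] at hfin ⊢
  rw [← measureReal_def, ← integral_indicator_one hm]
  refine integral_mono ((integrable_indicator_iff hm).mpr (integrableOn_const hfin.ne))
    (hV.integrable_cut hδ hs hU) fun z => ?_
  by_cases hz : z.1 ∈ ball x (κ * s)
  · rw [Set.indicator_of_mem (by exact hz)]
    rw [mem_ball, dist_eq_norm] at hz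
    refine (cut_one hδ ?_).ge
    rw [sub_sub_cancel, div_le_iff₀ (by positivity), ← mul_pow]
    gcongr
  · rw [Set.indicator_of_notMem (by exact hz)]
    exact cut_nonneg _ _

lemma omega_pos (m : ℕ) : 0 < omega m :=
  ENNReal.toReal_pos (measure_ball_pos _ _ one_pos).ne' measure_ball_lt_top.ne

/-- lower mass bound from the density at the centre -/
lemma IsStationaryVarifold.mass_ge_of_density (hV : IsStationaryVarifold m U V) {x : E}
    {θ ρ : ℝ} (hθ : HasDensity m V.fst x θ) (hρ : 0 < ρ) (hU : closedBall x ρ ⊆ U)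
    (hUo : IsOpen U) : θ * omega m * ρ ^ m ≤ (V.fst (ball x ρ)).toReal := by
  obtain ⟨R, hR, hRU⟩ : ∃ R, ρ < R ∧ ball x R ⊆ U := by
    obtain ⟨d, hd, h⟩ := (isCompact_closedBall x ρ).exists_thickening_subset_open hUo hU
    rw [thickening_closedBall hd hρ.le] at h
    exact ⟨d + ρ, by linarith, h⟩
  have hω := omega_pos m
  have key : ∀ κ ∈ Ioo (0 : ℝ) 1, θ * omega m * κ ^ m ≤ (V.fst (ball x ρ)).toReal / ρ ^ m := by
    intro κ hκ
    have hκ0 := hκ.1
    have hδ : 0 < 1 - κ ^ 2 := by nlinarith [hκ.1, hκ.2]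
    have ht : Tendsto (fun σ : ℝ => κ * σ) (𝓝[>] 0) (𝓝[>] 0) := by
      refine tendsto_nhdsWithin_iff.mpr ⟨?_, ?_⟩
      · have : Tendsto (fun σ : ℝ => κ * σ) (𝓝 0) (𝓝 (κ * 0)) :=
          (continuous_const.mul continuous_id).tendsto 0
        rw [mul_zero] at this
        exact this.mono_left nhdsWithin_le_nhds
      · filter_upwards [self_mem_nhdsWithin] with σ hσ
        exact mul_pos hκ0 hσ
    have h1 := (hθ.comp ht).mul_const (omega m * κ ^ m)
    rw [← mul_assoc] at h1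
    refine le_of_tendsto h1 ?_
    filter_upwards [Ioo_mem_nhdsGT hρ] with σ hσ
    have hσ0 := hσ.1
    have h2 := hV.le_sm hκ.1 hκ.2 hσ.1 ((closedBall_subset_closedBall hσ.2.le).trans hU)
    have h3 := hV.sm_mono hδ hRU ⟨hσ.1, hσ.2.trans hR⟩ ⟨hρ, hR⟩ hσ.2.le
    have h4 := hV.sm_le hδ hρ hU
    calc _ = (V.fst (ball x (κ * σ))).toReal / σ ^ m := by
          simp only [Function.comp_apply, mul_pow]
          field_simp
      _ ≤ sm V x (1 - κ ^ 2) σ / σ ^ m := by gcongr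
      _ ≤ sm V x (1 - κ ^ 2) ρ / ρ ^ m := h3
      _ ≤ _ := by gcongr
  have h5 : Tendsto (fun κ : ℝ => θ * omega m * κ ^ m) (𝓝[<] 1) (𝓝 (θ * omega m * 1 ^ m)) :=
    ((continuous_const.mul (continuous_pow m)).tendsto 1).mono_left nhdsWithin_le_nhds
  have h6 := le_of_tendsto h5 (by
    filter_upwards [Ioo_mem_nhdsLT (zero_lt_one' ℝ)] with κ hκ
    exact key κ hκ)
  rwa [one_pow, mul_one, le_div_iff₀ (by positivity)] at h6

/-- lower mass bound from nearby points of density at least `θ` -/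
lemma IsStationaryVarifold.mass_ge_of_near (hV : IsStationaryVarifold m U V) {x : E}
    {θ ρ : ℝ}
    (hθ : ∀ η > 0, ∃ y ∈ ball x η, ∃ θ', θ ≤ θ' ∧ HasDensity m V.fst y θ') (hρ : 0 < ρ)
    (hU : closedBall x ρ ⊆ U) (hUo : IsOpen U) :
    θ * omega m * ρ ^ m ≤ (V.fst (ball x ρ)).toReal := by
  have hω := omega_pos m
  have h5 : Tendsto (fun η : ℝ => θ * omega m * (ρ - η) ^ m) (𝓝[>] 0)
      (𝓝 (θ * omega m * (ρ - 0) ^ m)) :=
    ((continuous_const.mul ((continuous_const.sub continuous_id).pow m)).tendsto 0).mono_left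
      nhdsWithin_le_nhds
  rw [sub_zero] at h5
  refine le_of_tendsto h5 ?_
  filter_upwards [Ioo_mem_nhdsGT hρ] with η hη
  obtain ⟨y, hy, θ', h1, h2⟩ := hθ η hη.1
  have hη' : 0 < ρ - η := by linarith [hη.2]
  have hyx : dist y x < η := hy
  have h3 := hV.mass_ge_of_density h2 hη'
    ((closedBall_subset_closedBall' (by linarith)).trans hU) hUo
  calc θ * omega m * (ρ - η) ^ m ≤ θ' * omega m * (ρ - η) ^ m := by gcongr
    _ ≤ _ := h3
    _ ≤ _ := ENNReal.toReal_mono (hV.ball_lt_top hU).ne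
        (measure_mono (ball_subset_ball' (by linarith)))

/-- lower mass bound at points of the support -/
lemma IsStationaryVarifold.mass_ge_of_support (hV : IsStationaryVarifold m U V)
    (h1 : ∀ᵐ x ∂V.fst, ∃ θ, 1 ≤ θ ∧ HasDensity m V.fst x θ) {x : E} (hx : x ∈ V.fst.support)
    {ρ : ℝ} (hρ : 0 < ρ) (hU : closedBall x ρ ⊆ U) (hUo : IsOpen U) :
    omega m * ρ ^ m ≤ (V.fst (ball x ρ)).toReal := by
  have := hV.mass_ge_of_near (θ := 1) (fun η hη => ?_) hρ hU hUo
  · rwa [one_mul] at this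
  · by_contra hcon
    push Not at hcon
    have h2 := (Measure.mem_support_iff_forall x).mp hx _ (ball_mem_nhds x hη)
    refine h2.ne' (measure_mono_null (fun y hy => ?_) h1)
    rintro ⟨θ', h3, h4⟩
    exact hcon y hy θ' h3 h4

end Pool.Agent.Lib.MP_8daebb_an
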