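import Pool.Agent.Lib.MP_8daebb_an.Trace

/-! The barrier principle for stationary varifolds. -/

set_option linter.unusedSectionVars false

open MeasureTheory Metric Filter Topology Set
open scoped RealInnerProductSpace Manifold

namespace Pool.Agent.Lib.MP_8daebb_an

variable {E : Type*} [NormedAddCommGroup E] [InnerProductSpace ℝ E] [FiniteDimensional ℝ E]
  [MeasurableSpace E] [BorelSpace E]

variable {m : ℕ} {U : Set E} {V : Measure (E × (E →L[ℝ] E))}

lemma exists_cutoff {K W : Set E} (hK : IsCompact K) (hW : IsOpen W) (hKW : K ⊆ W) :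
    ∃ χ : E → ℝ, ContDiff ℝ 1 χ ∧ tsupport χ ⊆ W ∧ ∀ x ∈ K, ∀ᶠ y in 𝓝 x, χ y = 1 := by
  obtain ⟨f, h0, h1, -⟩ := exists_contMDiffMap_zero_one_nhds_of_isClosed (n := 1) 𝓘(ℝ, E)
    hW.isClosed_compl hK.isClosed (disjoint_compl_left_iff_subset.mpr hKW)
  refine ⟨f, f.contMDiff.contDiff, ?_, fun x hx => h1.filter_mono (nhds_le_nhdsSet hx)⟩
  intro x hx
  by_contra hxW
  exact (notMem_tsupport_iff_eventuallyEq.mpr (h0.filter_mono (nhds_le_nhdsSet hxW))) hx

theorem IsStationaryVarifold.barrier (hV : IsStationaryVarifold m U V) {W : Set E}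
    (hW : IsOpen W) (hWc : IsCompact (closure W)) (hWU : W ⊆ U) {g : E → ℝ} {Y : E → E}
    (hg : ContDiff ℝ 1 g) (hY : ContDiff ℝ 1 Y) (hgY : ∀ x v, fderiv ℝ g x v = ⟪Y x, v⟫) {ε : ℝ}
    (hb : ∀ x ∈ V.fst.support, x ∈ closure W → x ∉ W → g x < ε)
    (hconv : ∀ x ∈ V.fst.support, x ∈ W → ε < g x → ∀ e : Fin m → E, Orthonormal ℝ e →
      0 < ∑ i, ⟪e i, fderiv ℝ Y x (e i)⟫) :
    ∀ x ∈ V.fst.support, x ∈ W → g x ≤ ε := by
  let K := V.fst.support ∩ closure W ∩ {x | ε ≤ g x}
  have hKc : IsCompact K :=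
    (hWc.inter_left Measure.isClosed_support).inter_right
      (isClosed_le continuous_const hg.continuous)
  have hKW : K ⊆ W := by
    rintro x ⟨⟨h1, h2⟩, h3⟩
    by_contra h4
    exact absurd (hb x h1 h2 h4) (not_lt.mpr h3)
  obtain ⟨χ, hχ, hχW, hχ1⟩ := exists_cutoff hKc hW hKW
  let β : ℝ → ℝ := fun t => expNegInvGlue (t - ε)
  have hβ : ContDiff ℝ 1 β := expNegInvGlue.contDiff.comp (contDiff_id.sub contDiff_const)
  have hβm : Monotone β := fun a b hab => expNegInvGlue.monotone (by linarith)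
  let Z : E → E := fun x => β (g x) • Y x
  have hZ : ContDiff ℝ 1 Z := (hβ.comp hg).smul hY
  let X : E → E := fun x => χ x • Z x
  have hX : ContDiff ℝ 1 X := hχ.smul hZ
  have hXs : tsupport X ⊆ tsupport χ := tsupport_smul_subset_left _ _
  have hXc : HasCompactSupport X :=
    hWc.of_isClosed_subset (isClosed_tsupport _) (hXs.trans (hχW.trans subset_closure))
  have hdiv : ∀ z : E × (E →L[ℝ] E), z.1 ∈ K → IsPlane m z.2 → ∃ e : Fin m → E,
      Orthonormal ℝ e ∧ β (g z.1) * ∑ i, ⟪e i, fderiv ℝ Y z.1 (e i)⟫ ≤ tanDiv X z := by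
    intro z hz hP
    obtain ⟨e, he, ht⟩ := hP.exists_frame
    refine ⟨e, he, ?_⟩
    have e1 : X =ᶠ[𝓝 z.1] Z := by
      filter_upwards [hχ1 z.1 hz] with y hy
      simp [X, hy]
    have hd1 : HasDerivAt β (deriv β (g z.1)) (g z.1) :=
      (hβ.differentiable one_ne_zero _).hasDerivAt
    have hd2 := hd1.comp_hasFDerivAt z.1 (hg.differentiable one_ne_zero z.1).hasFDerivAt
    have hd3 := hd2.smul (hY.differentiable one_ne_zero z.1).hasFDerivAt
    have e2 : Z = (β ∘ g) • Y := rfl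
    rw [tanDiv, ht, e1.fderiv_eq, e2, hd3.fderiv, Finset.mul_sum]
    refine Finset.sum_le_sum fun i _ => ?_
    simp only [add_apply, smul_apply, ContinuousLinearMap.smulRight_apply, inner_add_right,
      inner_smul_right, Function.comp_apply, smul_eq_mul, hgY, real_inner_comm (e i) (Y z.1)]
    have := mul_nonneg (hβm.deriv_nonneg (x := g z.1)) (mul_self_nonneg ⟪Y z.1, e i⟫)
    rw [real_inner_comm (Y z.1) (e i)]
    nlinarith
  have hae := hV.ae_eq_zero_of_nonneg hX hXc (hXs.trans (hχW.trans hWU)) (by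
    intro z hz hP
    by_cases hzK : z.1 ∈ K
    · obtain ⟨e, he, h⟩ := hdiv z hzK hP
      refine le_trans ?_ h
      rcases (show ε ≤ g z.1 from hzK.2).eq_or_lt with h1 | h1
      · have : β (g z.1) = 0 := expNegInvGlue.zero_of_nonpos (by linarith)
        rw [this, zero_mul]
      · exact mul_nonneg (expNegInvGlue.nonneg _) (hconv _ hz (hKW hzK) h1 e he).le
    · have e1 : X =ᶠ[𝓝 z.1] fun _ => 0 := by
        by_cases hzW : z.1 ∈ closure W
        · have h1 : g z.1 < ε := by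
            by_contra h2
            exact hzK ⟨⟨hz, hzW⟩, not_lt.mp h2⟩
          filter_upwards [hg.continuous.continuousAt.eventually_lt continuousAt_const h1] with y hy
          have : β (g y) = 0 := expNegInvGlue.zero_of_nonpos (by linarith)
          simp [X, Z, this]
        · exact notMem_tsupport_iff_eventuallyEq.mp
            (fun h => hzW (subset_closure (hχW (hXs h))))
      simp [tanDiv, e1.fderiv_eq])
  intro x hx hxW
  by_contra hlt
  rw [not_le] at hlt
  have hN : IsOpen (W ∩ {y | ε < g y}) := hW.inter (isOpen_lt continuous_const hg.continuous)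
  have h1 := (Measure.mem_support_iff_forall x).mp hx _ (hN.mem_nhds ⟨hxW, hlt⟩)
  rw [Measure.fst_apply hN.measurableSet] at h1
  have h2 : ∀ᵐ z ∂V, z.1 ∈ V.fst.support :=
    ae_of_ae_map measurable_fst.aemeasurable (Measure.support_mem_ae (μ := V.fst))
  refine h1.ne' (measure_eq_zero_iff_ae_notMem.mpr ?_)
  filter_upwards [hae, h2, hV.carried] with z hz1 hz2 hz3 hz4
  have hz5 : ε < g z.1 := hz4.2
  obtain ⟨e, he, h⟩ := hdiv z ⟨⟨hz2, subset_closure hz4.1⟩, hz5.le⟩ hz3.2
  have h5 := mul_pos (expNegInvGlue.pos_of_pos (sub_pos.mpr hz5)) (hconv _ hz2 hz4.1 hz5 e he)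
  change 0 < β (g z.1) * _ at h5
  linarith

end Pool.Agent.Lib.MP_8daebb_an
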