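import Pool.Agent.Lib.MP_8daebb_an.Circle

/-! The two families of symmetries. -/

set_option linter.unusedSectionVars false

open Complex NormedSpace MeasureTheory Metric Filter Topology Set
open scoped RealInnerProductSpace ContDiff

namespace Pool.Agent.Lib.MP_8daebb_an

variable {E : Type*} [NormedAddCommGroup E] [InnerProductSpace ℝ E] [FiniteDimensional ℝ E]
variable [MeasurableSpace E] [BorelSpace E]
variable {m : ℕ} {U : Set E} {V : Measure (E × (E →L[ℝ] E))}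

lemma integral_invariant {μ : Measure E} {x₀ : E} {R : ℝ} {g : E →L[ℝ] E}
    (hg : ∀ x y, ⟪g x, g y⟫ = ⟪x, y⟫)
    (h : (μ.restrict (ball x₀ R)).map (fun x => x₀ + g (x - x₀)) = μ.restrict (ball x₀ R))
    {φ : E → ℝ} (hφ : Continuous φ) (hφ0 : ∀ x, 1 ≤ ‖x‖ → φ x = 0) {r : ℝ} (hr : 0 < r)
    (hrR : r ≤ R) :
    ∫ y, φ (g (r⁻¹ • (y - x₀))) ∂μ = ∫ y, φ (r⁻¹ • (y - x₀)) ∂μ := by
  have hn : ∀ y, y ∉ ball x₀ R → 1 ≤ ‖r⁻¹ • (y - x₀)‖ := by
    intro y hy
    rw [mem_ball, dist_eq_norm, not_lt] at hy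
    rw [norm_smul, norm_inv, Real.norm_of_nonneg hr.le, ← div_eq_inv_mul, one_le_div hr]
    linarith
  rw [← setIntegral_eq_integral_of_forall_compl_eq_zero (s := ball x₀ R)
      (fun y hy => hφ0 _ (by rw [norm_map_of_inner hg]; exact hn y hy)),
    ← setIntegral_eq_integral_of_forall_compl_eq_zero (s := ball x₀ R)
      (fun y hy => hφ0 _ (hn y hy))]
  conv_rhs => rw [← h]
  rw [integral_map (by fun_prop) (by fun_prop)]
  simp only [add_sub_cancel_left, map_smul]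

lemma hasCompactSupport_of_norm {φ : E → ℝ} (hφ0 : ∀ x, 1 ≤ ‖x‖ → φ x = 0) {X : Type*}
    [NormedAddCommGroup X] [ProperSpace X] (k : X → E) (hk : ∀ x, ‖k x‖ = ‖x‖) :
    HasCompactSupport (fun x => φ (k x)) := by
  refine HasCompactSupport.intro (isCompact_closedBall (0 : X) 1) fun x hx => hφ0 _ ?_
  rw [mem_closedBall_zero_iff, not_le] at hx
  rw [hk]; exact hx.le

/-- A symmetry of the measure preserves the tangent plane. -/
lemma plane_invariant {μ : Measure E} {x₀ : E} {Q : ℝ} (hQ : Q ≠ 0)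
    {ι : EuclideanSpace ℝ (Fin m) →ₗᵢ[ℝ] E} (ht : HasFlatTangent m μ x₀ Q ι) {R : ℝ} (hR : 0 < R)
    {g : E →L[ℝ] E} (hg : ∀ x y, ⟪g x, g y⟫ = ⟪x, y⟫)
    (h : (μ.restrict (ball x₀ R)).map (fun x => x₀ + g (x - x₀)) = μ.restrict (ball x₀ R))
    (p : EuclideanSpace ℝ (Fin m)) : ∃ q, g (ι p) = ι q := by
  let φ : E → ℝ := fun x => max 0 (1 - ‖x‖) * ‖nr ι x‖
  have hφ : Continuous φ := by fun_prop
  have hφ0 : ∀ x, 1 ≤ ‖x‖ → φ x = 0 := fun x hx => by
    simp only [φ]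
    rw [max_eq_left (by linarith), zero_mul]
  have h1 := ht φ hφ (hasCompactSupport_of_norm hφ0 id fun _ => rfl)
  have h2 := ht (fun x => φ (g x)) (by fun_prop) (hasCompactSupport_of_norm hφ0 g (norm_map_of_inner hg))
  have h3 := tendsto_nhds_unique_of_eventuallyEq h2 h1 (by
    filter_upwards [Ioo_mem_nhdsGT hR] with r hr
    rw [integral_invariant hg h hφ hφ0 hr.1 hr.2.le])
  have h4 : ∫ p, φ (ι p) = 0 := by simp [φ, nr_iota]
  rw [h4, mul_zero, mul_eq_zero, or_iff_right hQ] at h3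
  have hc : Continuous fun p => φ (g (ι p)) := by fun_prop
  have h5 : ∀ p, φ (g (ι p)) = 0 := by
    by_contra hne
    push Not at hne
    obtain ⟨p, hp⟩ := hne
    exact (hc.integral_pos_of_hasCompactSupport_nonneg_nonzero
      (hasCompactSupport_of_norm hφ0 (fun p => g (ι p))
        fun p => by rw [norm_map_of_inner hg, ι.norm_map])
      (fun p => by simp only [φ]; positivity) hp).ne' h3
  have hpos : 0 < ‖p‖ + 1 := by positivity
  have h6 := h5 ((‖p‖ + 1)⁻¹ • p)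
  have h7 : 0 < 1 - ‖g (ι ((‖p‖ + 1)⁻¹ • p))‖ := by
    rw [norm_map_of_inner hg, ι.norm_map, norm_smul, norm_inv, Real.norm_of_nonneg hpos.le,
      ← div_eq_inv_mul, sub_pos, div_lt_one hpos]
    linarith
  simp only [φ] at h6
  rw [max_eq_right h7.le, mul_eq_zero, or_iff_right h7.ne', norm_eq_zero, map_smul, map_smul,
    map_smul, smul_eq_zero, or_iff_right (inv_ne_zero hpos.ne')] at h6
  exact ⟨pr ι (g (ι p)), by rw [← iota_pr_add_nr ι (g (ι p)), h6, add_zero, pr_iota]⟩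

lemma IsStationaryVarifold.one_le_density (hV : IsStationaryVarifold m U V) (hUo : IsOpen U)
    (h1 : ∀ᵐ x ∂V.fst, ∃ θ, 1 ≤ θ ∧ HasDensity m V.fst x θ) {x₀ : E} (hx₀ : x₀ ∈ U)
    (hx₀s : x₀ ∈ V.fst.support) {Q : ℝ} (hd : HasDensity m V.fst x₀ Q) : 1 ≤ Q := by
  have hω := omega_pos m
  obtain ⟨R₁, hR₁, hRU⟩ := Metric.isOpen_iff.mp hUo x₀ hx₀
  refine ge_of_tendsto hd ?_
  filter_upwards [Ioo_mem_nhdsGT hR₁] with r hr
  have hr0 := hr.1
  rw [one_le_div (by positivity)]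
  exact hV.mass_ge_of_support h1 hx₀s hr.1 ((closedBall_subset_ball hr.2).trans hRU) hUo

/-- Symmetries transitive on the spheres of the plane, without new fixed normal vectors. -/
theorem IsStationaryVarifold.regular_of_transitive (hV : IsStationaryVarifold m U V)
    (hUo : IsOpen U) (hm : 0 < m)
    (h1 : ∀ᵐ x ∂V.fst, ∃ θ, 1 ≤ θ ∧ HasDensity m V.fst x θ) {x₀ : E} (hx₀ : x₀ ∈ U)
    (hx₀s : x₀ ∈ V.fst.support) {Q : ℝ} (hd : HasDensity m V.fst x₀ Q)
    {ι : EuclideanSpace ℝ (Fin m) →ₗᵢ[ℝ] E} (ht : HasFlatTangent m V.fst x₀ Q ι)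
    (hbad : Tendsto (fun r : ℝ => (V.fst ({x | ¬HasDensity m V.fst x Q} ∩ ball x₀ r)).toReal /
      r ^ m) (𝓝[>] 0) (𝓝 0))
    (G : Set (E ≃ₗᵢ[ℝ] E)) {R₀ : ℝ} (hR₀ : 0 < R₀)
    (hinv : ∀ g ∈ G, (V.fst.restrict (ball x₀ R₀)).map (fun x => x₀ + g (x - x₀)) =
      V.fst.restrict (ball x₀ R₀))
    (htr : ∀ p q, ‖p‖ = ‖q‖ → ∃ g ∈ G, g (ι p) = ι q)
    (hfix : ∀ p, p ≠ 0 → ∀ w, (∀ q, ⟪w, ι q⟫ = 0) → (∀ g ∈ G, g (ι p) = ι p → g w = w) →
      ∀ g ∈ G, g w = w) :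
    ∃ r > 0, ∃ f : EuclideanSpace ℝ (Fin m) → E, ContDiff ℝ ∞ f ∧ (∀ p q, ⟪f p, ι q⟫ = 0) ∧
      V.fst.support ∩ ball x₀ r = (range fun p => x₀ + ι p + f p) ∩ ball x₀ r := by
  have hQ := hV.one_le_density hUo h1 hx₀ hx₀s hd
  refine hV.regular_of_symmetric hUo hm h1 hx₀ hx₀s hd ht hbad
    ((fun g : E ≃ₗᵢ[ℝ] E => (g.toContinuousLinearEquiv : E →L[ℝ] E)) '' G) hR₀ ?_ ?_ ?_ ?_
    (ε := 1 / 2) (by norm_num) (by norm_num) ?_
  · rintro _ ⟨g, -, rfl⟩ x y
    exact g.inner_map_map x y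
  · rintro _ ⟨g, hg, rfl⟩
    exact hinv g hg
  · rintro _ ⟨g, hg, rfl⟩ p
    exact plane_invariant (by linarith) ht hR₀ (fun x y => g.inner_map_map x y) (hinv g hg) p
  · intro p q h
    obtain ⟨g, hg, hgp⟩ := htr p q h
    exact ⟨_, ⟨g, hg, rfl⟩, hgp⟩
  · intro p hp w hw hwp hwf
    refine ⟨fun _ => w, smallGraph_const _ ι hw (by nlinarith [norm_nonneg p]), ?_⟩
    rintro _ ⟨g, hg, rfl⟩ q w' - hw'
    have h2 := hfix p hp w hw (fun g hg hgp => hwf _ ⟨g, hg, rfl⟩ hgp) g hg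
    exact g.injective (h2.trans (Eq.symm hw'))

lemma exists_rot (j : ℂ →ₗᵢ[ℝ] E) {A : E →L[ℝ] E} (hA : ∀ x y, ⟪A x, y⟫ = -⟪x, A y⟫)
    (hpl : ∀ z, ∃ z', A (j z) = j z') : ∃ a : ℝ, ∀ z, A (j z) = a • j (I * z) := by
  obtain ⟨z₁, h₁⟩ := hpl 1
  obtain ⟨z₂, h₂⟩ := hpl I
  have e1 := inner_skew_self hA (j 1)
  have e2 := inner_skew_self hA (j I)
  have e3 := hA (j 1) (j I)
  rw [h₁, j.inner_map_map, Complex.inner] at e1
  rw [h₂, j.inner_map_map, Complex.inner] at e2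
  rw [h₁, h₂, j.inner_map_map, j.inner_map_map, Complex.inner, Complex.inner] at e3
  simp only [map_one, mul_one, conj_I, mul_re, neg_re, neg_im, I_re, I_im, conj_re,
    conj_im] at e1 e2 e3
  refine ⟨z₁.im, fun z => ?_⟩
  have hz : z = z.re • (1 : ℂ) + z.im • I := by
    apply Complex.ext <;> simp
  conv_lhs => rw [hz, map_add, map_add, map_smul, map_smul, map_smul, map_smul, h₁, h₂,
    ← map_smul, ← map_smul, ← map_add]
  rw [← map_smul]
  congr 1
  apply Complex.ext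
  · simp only [add_re, smul_re, smul_eq_mul, mul_re, I_re, I_im]
    have : z₂.re = -z₁.im := by linarith
    have h0 : z₁.re = 0 := by linarith
    rw [this, h0]; ring
  · simp only [add_im, smul_im, smul_eq_mul, mul_im, I_re, I_im]
    have h0 : z₂.im = 0 := by linarith
    rw [h0]; ring

lemma flow_rot (j : ℂ →ₗᵢ[ℝ] E) {B : E →L[ℝ] E} (hB : ∀ x y, ⟪B x, y⟫ = -⟪x, B y⟫)
    (h : ∀ z, B (j z) = j (I * z)) (s : ℝ) (z : ℂ) :
    NormedSpace.exp (s • B) (j z) = j (Complex.exp (s * I) * z) := by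
  rw [flow_pair hB (l := 1) (a := j z) (b := j (I * z)) (by rw [h, one_smul])
    (by rw [h, one_smul, ← map_neg, ← mul_assoc, I_mul_I, neg_one_mul]), one_mul, ← map_smul,
    ← map_smul, ← map_add, exp_mul_I]
  congr 1
  simp only [real_smul, ofReal_cos, ofReal_sin]
  ring

/-- Surfaces invariant under a one-parameter group of rotations that moves the plane. -/
theorem IsStationaryVarifold.regular_of_circle (hV : IsStationaryVarifold 2 U V)
    (hUo : IsOpen U)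
    (h1 : ∀ᵐ x ∂V.fst, ∃ θ, 1 ≤ θ ∧ HasDensity 2 V.fst x θ) {x₀ : E} (hx₀ : x₀ ∈ U)
    (hx₀s : x₀ ∈ V.fst.support) {Q : ℝ} (hd : HasDensity 2 V.fst x₀ Q)
    {ι : EuclideanSpace ℝ (Fin 2) →ₗᵢ[ℝ] E} (ht : HasFlatTangent 2 V.fst x₀ Q ι)
    (hbad : Tendsto (fun r : ℝ => (V.fst ({x | ¬HasDensity 2 V.fst x Q} ∩ ball x₀ r)).toReal /
      r ^ 2) (𝓝[>] 0) (𝓝 0))
    {A : E →L[ℝ] E} (hA : ∀ x y, ⟪A x, y⟫ = -⟪x, A y⟫) (hA0 : ∃ p, A (ι p) ≠ 0)
    {R₀ : ℝ} (hR₀ : 0 < R₀)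
    (hinv : ∀ t : ℝ, (V.fst.restrict (ball x₀ R₀)).map
      (fun x => x₀ + NormedSpace.exp (t • A) (x - x₀)) = V.fst.restrict (ball x₀ R₀)) :
    ∃ r > 0, ∃ f : EuclideanSpace ℝ (Fin 2) → E, ContDiff ℝ ∞ f ∧ (∀ p q, ⟪f p, ι q⟫ = 0) ∧
      V.fst.support ∩ ball x₀ r = (range fun p => x₀ + ι p + f p) ∩ ball x₀ r := by
  have hQ := hV.one_le_density hUo h1 hx₀ hx₀s hd
  have hAp : ∀ p, nr ι (A (ι p)) = 0 := by
    intro p
    have h2 : (fun t : ℝ => nr ι (NormedSpace.exp (t • A) (ι p))) = fun _ => 0 := by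
      funext t
      obtain ⟨q, hq⟩ := plane_invariant (by linarith) ht hR₀ (inner_flow hA t) (hinv t) p
      rw [hq, nr_iota]
    have h3 := (nr ι).hasFDerivAt.comp_hasDerivAt 0 (hasDerivAt_flow A (ι p) 0)
    rw [flow_zero] at h3
    have h4 : HasDerivAt (fun t : ℝ => nr ι (NormedSpace.exp (t • A) (ι p))) 0 0 := by
      rw [h2]; exact hasDerivAt_const _ _
    exact h3.unique h4
  let c := Complex.orthonormalBasisOneI.repr
  let j : ℂ →ₗᵢ[ℝ] E := ι.comp c.toLinearIsometry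
  have hj : ∀ p, ι p = j (c.symm p) := fun p => by simp [j]
  obtain ⟨a, ha⟩ := exists_rot j hA (fun z => ⟨c.symm (pr ι (A (j z))), by
    rw [← hj]
    conv_lhs => rw [← iota_pr_add_nr ι (A (j z))]
    change _ + nr ι (A (ι (c z))) = _
    rw [hAp, add_zero]⟩)
  have ha0 : a ≠ 0 := by
    rintro rfl
    obtain ⟨p, hp⟩ := hA0
    exact hp (by rw [hj, ha, zero_smul])
  let B : E →L[ℝ] E := a⁻¹ • A
  have hB : ∀ x y, ⟪B x, y⟫ = -⟪x, B y⟫ := fun x y => by
    simp only [B, _root_.smul_apply, inner_smul_left, inner_smul_right, hA,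
      conj_trivial, mul_neg]
  have hBj : ∀ z, B (j z) = j (I * z) := fun z => by
    simp only [B, _root_.smul_apply]
    rw [ha, smul_smul, inv_mul_cancel₀ ha0, one_smul]
  have hrot := flow_rot j hB hBj
  have hBn : ∀ x, nr ι (B x) = B (nr ι x) := by
    intro x
    conv_lhs => rw [← iota_pr_add_nr ι x, map_add, map_add, hj, hBj]
    change nr ι (ι (c _)) + _ = _
    rw [nr_iota, zero_add]
    refine nr_eq_self ι fun p => ?_
    rw [hB, hj, hBj, neg_eq_zero]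
    exact inner_nr_iota ι x _
  set K := ⌈‖B‖⌉₊ with hK
  have hK0 : (0 : ℝ) < 256 * ((K : ℝ) + 1) ^ 3 := by positivity
  have hK1 : (1 : ℝ) < 256 * ((K : ℝ) + 1) ^ 3 := by
    have : (1 : ℝ) ≤ ((K : ℝ) + 1) ^ 3 := one_le_pow₀ (by linarith [Nat.cast_nonneg (α := ℝ) K])
    linarith
  refine hV.regular_of_symmetric hUo two_pos h1 hx₀ hx₀s hd ht hbad
    (range fun s : ℝ => NormedSpace.exp (s • B)) hR₀ ?_ ?_ ?_ ?_
    (ε := 1 / (256 * ((K : ℝ) + 1) ^ 3)) (by positivity) (by rwa [div_lt_one hK0]) ?_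
  · rintro _ ⟨s, rfl⟩
    exact inner_flow hB s
  · rintro _ ⟨s, rfl⟩
    simp only [B, smul_smul]
    exact hinv _
  · rintro _ ⟨s, rfl⟩ p
    exact ⟨c _, by rw [hj, hrot]; rfl⟩
  · intro p q h
    by_cases hp : p = 0
    · have hq : q = 0 := by rw [← norm_eq_zero, ← h, hp, norm_zero]
      exact ⟨_, ⟨0, rfl⟩, by rw [hp, hq, map_zero, map_zero]⟩
    have hz : c.symm p ≠ 0 := by simpa using hp
    refine ⟨_, ⟨arg (c.symm q / c.symm p), rfl⟩, ?_⟩
    have h2 := norm_mul_exp_arg_mul_I (c.symm q / c.symm p)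
    rw [norm_div, c.symm.norm_map, c.symm.norm_map, h, div_self (by
      rw [← h]; exact norm_ne_zero_iff.mpr hp), ofReal_one, one_mul] at h2
    rw [hj, hj, hrot, h2, div_mul_cancel₀ _ hz]
  · intro p hp w hw hwp hwf
    have hz : c.symm p ≠ 0 := by simpa using hp
    have hp0 : 0 < ‖p‖ := norm_pos_iff.mpr hp
    have hper := hwf _ ⟨2 * Real.pi, rfl⟩ (by
      rw [hj, hrot]
      push_cast
      rw [exp_two_pi_mul_I, one_mul])
    obtain ⟨u, hu1, hu2, hu3, hu4⟩ := exists_freq hB (nr ι) hBn (K := K) (Nat.le_ceil _)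
      (nr_eq_self ι hw) hper
    let v : ℕ → E := fun k => (k : ℝ)⁻¹ • B (u k)
    have hne : ∀ k l : ℕ, k ≠ l → (k : ℝ) ^ 2 ≠ (l : ℝ) ^ 2 := fun k l hkl h => hkl (by
      have : (k : ℝ) = l := (pow_left_inj₀ (by positivity) (by positivity) two_ne_zero).mp h
      exact_mod_cast this)
    have hu5 : ∀ k : ℕ, B (B (B (u k))) = -((k : ℝ) ^ 2 • B (u k)) := fun k => by
      rw [hu2, map_neg, map_smul]
    have hvv : ∀ k, k ≠ 0 → ⟪v k, v k⟫ = ⟪u k, u k⟫ := by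
      intro k hk
      have hk' : (k : ℝ) ≠ 0 := by exact_mod_cast hk
      simp only [v]
      rw [inner_smul_left, inner_smul_right, hB, hu2, inner_neg_right, inner_smul_right,
        conj_trivial]
      field_simp
    let ζ : EuclideanSpace ℝ (Fin 2) →L[ℝ] ℂ :=
      (c.symm p)⁻¹ • (c.symm.toContinuousLinearEquiv : EuclideanSpace ℝ (Fin 2) →L[ℝ] ℂ)
    have hζ : ∀ q, ζ q = (c.symm p)⁻¹ * c.symm q := fun q => rfl
    refine ⟨_, smallGraph_poly (EuclideanSpace.basisFun (Fin 2) ℝ) ι hp0 ζ ?_ ?_ K u v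
      (N := ‖w‖) hu3 ?_ ?_ ?_ ?_ ?_ (fun k l h => eigen_orth hB (hu2 k) (hu2 l) (hne k l h))
      ?_ hvv, ?_⟩
    · intro x y
      rw [← c.symm.inner_map_map, Complex.inner, ← c.symm.norm_map p, Complex.sq_norm, hζ, hζ]
      have h2 := normSq_pos.mpr hz
      simp only [mul_re, mul_im, inv_re, inv_im, conj_re, conj_im]
      field_simp
      rw [normSq_apply]
      ring
    · rw [hζ, hζ]
      have e0 : c.symm (EuclideanSpace.basisFun (Fin 2) ℝ 0) = 1 := by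
        simp [c]
      have e1 : c.symm (EuclideanSpace.basisFun (Fin 2) ℝ 1) = I := by
        simp [c]
      rw [e0, e1]; ring
    · intro k
      by_cases hk : k = 0
      · simp [v, hk]
      · rw [norm_eq_sqrt_real_inner, hvv k hk, ← norm_eq_sqrt_real_inner]
        exact hu3 k
    · rw [one_div, ← div_eq_inv_mul, le_div_iff₀ hK0] at hwp
      linarith
    · intro k q
      obtain ⟨x, hx⟩ := hu1 k
      rw [hx]; exact inner_nr_iota ι x q
    · intro k q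
      obtain ⟨x, hx⟩ := hu1 k
      simp only [v]
      rw [hx, ← hBn, inner_smul_left, inner_nr_iota, mul_zero]
    · intro k l
      simp only [v]
      rw [inner_smul_right]
      by_cases hkl : k = l
      · rw [hkl, inner_skew_self hB, mul_zero]
      · rw [eigen_orth hB (hu2 k) (hu5 l) (hne k l hkl), mul_zero]
    · intro k l hkl
      simp only [v]
      rw [inner_smul_right, inner_smul_left, eigen_orth hB (hu5 k) (hu5 l) (hne k l hkl),
        mul_zero, mul_zero]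
    · rintro _ ⟨s, rfl⟩ q w' hq hw'
      rw [hj, hj, hrot] at hq
      have h2 := j.injective hq
      have h3 : ζ q = Complex.exp ((-s : ℝ) * I) := by
        rw [hζ, ← h2, ofReal_neg, neg_mul, Complex.exp_neg]
        have : c.symm q ≠ 0 := by
          intro h; rw [h, mul_zero] at h2; exact hz h2.symm
        field_simp
      have h4 : NormedSpace.exp ((-s) • B) w = w' := by
        rw [← hw', flow_add hB, add_neg_cancel, flow_zero]
      rw [← h4]
      conv_rhs => rw [hu4, map_sum]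
      refine Finset.sum_congr rfl fun k _ => ?_
      rw [flow_eigen hB (hu2 k), cm_apply, h3, ← Complex.exp_nat_mul, ← mul_assoc,
        ← ofReal_natCast, ← ofReal_mul, exp_ofReal_mul_I_re, exp_ofReal_mul_I_im]

end Pool.Agent.Lib.MP_8daebb_an
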