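import Pool.Agent.Lib.MP_8daebb_an.Poly

/-! One-parameter groups of rotations. -/

set_option linter.unusedSectionVars false

open Finset Complex NormedSpace MeasureTheory Metric Filter Topology
open scoped RealInnerProductSpace ContDiff

namespace Pool.Agent.Lib.MP_8daebb_an

variable {E : Type*} [NormedAddCommGroup E] [InnerProductSpace ℝ E] [FiniteDimensional ℝ E]

lemma hasDerivAt_flow (B : E →L[ℝ] E) (v : E) (t : ℝ) :
    HasDerivAt (fun s : ℝ => exp (s • B) v) (B (exp (t • B) v)) t := by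
  have := FiniteDimensional.complete ℝ E
  have h := (hasDerivAt_exp_smul_const' B t).clm_apply (hasDerivAt_const t v)
  simpa using h

lemma inner_const_of_ode {B : E →L[ℝ] E} (hB : ∀ x y, ⟪B x, y⟫ = -⟪x, B y⟫) {γ δ : ℝ → E}
    (hγ : ∀ t, HasDerivAt γ (B (γ t)) t) (hδ : ∀ t, HasDerivAt δ (B (δ t)) t) (t : ℝ) :
    ⟪γ t, δ t⟫ = ⟪γ 0, δ 0⟫ := by
  have h : ∀ s, HasDerivAt (fun s => ⟪γ s, δ s⟫) 0 s := fun s => by
    have := (hγ s).inner ℝ (hδ s)
    rwa [hB, add_neg_cancel] at this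
  exact is_const_of_deriv_eq_zero (fun s => (h s).differentiableAt) (fun s => (h s).deriv) t 0

lemma flow_zero (B : E →L[ℝ] E) (v : E) : exp ((0 : ℝ) • B) v = v := by simp

lemma inner_flow {B : E →L[ℝ] E} (hB : ∀ x y, ⟪B x, y⟫ = -⟪x, B y⟫) (t : ℝ) (x y : E) :
    ⟪exp (t • B) x, exp (t • B) y⟫ = ⟪x, y⟫ := by
  rw [inner_const_of_ode hB (hasDerivAt_flow B x) (hasDerivAt_flow B y) t, flow_zero, flow_zero]

lemma flow_unique {B : E →L[ℝ] E} (hB : ∀ x y, ⟪B x, y⟫ = -⟪x, B y⟫) {γ : ℝ → E}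
    (hγ : ∀ t, HasDerivAt γ (B (γ t)) t) (t : ℝ) : exp (t • B) (γ 0) = γ t := by
  have h : ∀ s, HasDerivAt (fun s : ℝ => exp (s • B) (γ 0) - γ s)
      (B (exp (s • B) (γ 0) - γ s)) s := fun s => by
    rw [map_sub]
    exact (hasDerivAt_flow B _ s).sub (hγ s)
  have h1 := inner_const_of_ode hB h h t
  rw [flow_zero, sub_self, inner_zero_left, inner_self_eq_zero] at h1
  exact sub_eq_zero.mp h1

lemma flow_add {B : E →L[ℝ] E} (hB : ∀ x y, ⟪B x, y⟫ = -⟪x, B y⟫) (s t : ℝ) (v : E) :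
    exp (t • B) (exp (s • B) v) = exp ((s + t) • B) v := by
  have h := flow_unique hB (γ := fun t => exp ((s + t) • B) v)
    (fun t => (hasDerivAt_flow B v (s + t)).comp_const_add s t) t
  simpa using h

/-- the flow on a two-dimensional invariant piece -/
lemma flow_pair {B : E →L[ℝ] E} (hB : ∀ x y, ⟪B x, y⟫ = -⟪x, B y⟫) {a b : E} {l : ℝ}
    (h1 : B a = l • b) (h2 : B b = -(l • a)) (t : ℝ) :
    exp (t • B) a = Real.cos (l * t) • a + Real.sin (l * t) • b := by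
  have h := flow_unique hB (γ := fun t => Real.cos (l * t) • a + Real.sin (l * t) • b)
    (fun t => by
      have hl : HasDerivAt (fun t : ℝ => l * t) l t := by
        simpa using (hasDerivAt_id t).const_mul l
      refine ((hl.cos.smul_const a).add (hl.sin.smul_const b)).congr_deriv ?_
      rw [map_add, map_smul, map_smul, h1, h2]
      module) t
  simpa using h

lemma flow_eigen {B : E →L[ℝ] E} (hB : ∀ x y, ⟪B x, y⟫ = -⟪x, B y⟫) {a : E} {l : ℝ}
    (h : B (B a) = -(l ^ 2 • a)) (t : ℝ) :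
    exp (t • B) a = Real.cos (l * t) • a + Real.sin (l * t) • (l⁻¹ • B a) := by
  by_cases hl : l = 0
  · subst hl
    have h0 : B a = 0 := by
      have := hB a (B a)
      rw [← inner_self_eq_zero (𝕜 := ℝ), hB, h]
      simp
    exact flow_pair hB (by simp [h0]) (by simp) t
  · refine flow_pair hB (by rw [smul_smul, mul_inv_cancel₀ hl, one_smul]) ?_ t
    rw [map_smul, h, smul_neg, smul_smul]
    congr 2
    field_simp

lemma eigen_orth {B : E →L[ℝ] E} (hB : ∀ x y, ⟪B x, y⟫ = -⟪x, B y⟫) {a b : E} {μ ν : ℝ}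
    (ha : B (B a) = -(μ • a)) (hb : B (B b) = -(ν • b)) (h : μ ≠ ν) : ⟪a, b⟫ = 0 := by
  have h1 : ⟪B (B a), b⟫ = ⟪a, B (B b)⟫ := by rw [hB, hB, neg_neg]
  rw [ha, hb, inner_neg_left, inner_neg_right, inner_smul_left, inner_smul_right, neg_inj,
    conj_trivial] at h1
  exact (mul_eq_zero.mp (by linarith : (μ - ν) * ⟪a, b⟫ = 0)).resolve_left (sub_ne_zero.mpr h)

lemma inner_skew_self {B : E →L[ℝ] E} (hB : ∀ x y, ⟪B x, y⟫ = -⟪x, B y⟫) (a : E) :
    ⟪a, B a⟫ = 0 := by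
  have := hB a a
  rw [real_inner_comm] at this
  linarith

/-- Decomposition of a vector with a `2π`-periodic orbit into integer frequencies. -/
theorem exists_freq {B : E →L[ℝ] E} (hB : ∀ x y, ⟪B x, y⟫ = -⟪x, B y⟫) (T : E →L[ℝ] E)
    (hT : ∀ x, T (B x) = B (T x)) {K : ℕ} (hK : ‖B‖ ≤ K) {w : E} (hw : T w = w)
    (hper : exp ((2 * Real.pi) • B) w = w) :
    ∃ a : ℕ → E, (∀ k, ∃ x, a k = T x) ∧ (∀ k : ℕ, B (B (a k)) = -((k : ℝ) ^ 2 • a k)) ∧
      (∀ k, ‖a k‖ ≤ ‖w‖) ∧ w = ∑ k ∈ range (K + 1), a k := by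
  classical
  let S : E →ₗ[ℝ] E := -((B : E →ₗ[ℝ] E).comp (B : E →ₗ[ℝ] E))
  have hS : S.IsSymmetric := fun x y => by
    change ⟪-(B (B x)), y⟫ = ⟪x, -(B (B y))⟫
    rw [inner_neg_left, inner_neg_right, hB, hB, neg_neg]
  have htop := Submodule.orthogonal_eq_bot_iff.mp hS.orthogonalComplement_iSup_eigenspaces_eq_bot
  obtain ⟨v₀, hv₀, hsum⟩ := (Submodule.mem_iSup_iff_exists_finsupp _ w).mp
    (htop ▸ Submodule.mem_top)
  let v : ℝ → E := fun μ => T (v₀ μ)
  have hv : ∀ μ, B (B (v μ)) = -(μ • v μ) := by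
    intro μ
    have h1 : -(B (B (v₀ μ))) = μ • v₀ μ := Module.End.mem_eigenspace_iff.mp (hv₀ μ)
    simp only [v]
    rw [← hT, ← hT, ← map_smul, ← h1, map_neg, neg_neg]
  have hw' : w = ∑ μ ∈ v₀.support, v μ := by
    rw [← hw, ← hsum, Finsupp.sum, map_sum]
  have hv0 : ∀ μ, μ ∉ v₀.support → v μ = 0 := fun μ hμ => by
    simp only [v, Finsupp.notMem_support_iff.mp hμ, map_zero]
  have hin : ∀ μ, ⟪w, v μ⟫ = ⟪v μ, v μ⟫ := by
    intro μ
    by_cases hμ : μ ∈ v₀.support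
    · rw [hw', sum_inner, sum_eq_single μ (fun ν _ hν => eigen_orth hB (hv ν) (hv μ) hν)
        (fun h => absurd hμ h)]
    · rw [hv0 μ hμ, inner_zero_right, inner_zero_right]
  have hBB : ∀ μ, ‖B (v μ)‖ ^ 2 = μ * ‖v μ‖ ^ 2 := fun μ => by
    rw [← real_inner_self_eq_norm_sq, hB, hv, inner_neg_right, neg_neg, inner_smul_right,
      real_inner_self_eq_norm_sq]
  have hint : ∀ μ, v μ ≠ 0 → ∃ k ∈ range (K + 1), μ = (k : ℝ) ^ 2 := by
    intro μ hμ
    have hpos : 0 < ‖v μ‖ ^ 2 := by positivity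
    have hμ0 : 0 ≤ μ := by
      have := hBB μ
      by_contra hneg
      nlinarith [sq_nonneg ‖B (v μ)‖]
    have hsq := Real.sq_sqrt hμ0
    have h1 := inner_flow hB (2 * Real.pi) w (v μ)
    have h2 : ⟪w, B (v μ)⟫ = 0 := by
      have h3 : B (B (B (v μ))) = -(μ • B (v μ)) := by rw [hv, map_neg, map_smul]
      rw [hw', sum_inner]
      refine sum_eq_zero fun ν _ => ?_
      by_cases hν : ν = μ
      · rw [hν]; exact inner_skew_self hB _
      · exact eigen_orth hB (hv ν) h3 hν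
    rw [hper, flow_eigen hB (l := √μ) (by rw [hsq]; exact hv μ), inner_add_right,
      inner_smul_right, inner_smul_right, inner_smul_right, h2, hin,
      real_inner_self_eq_norm_sq] at h1
    have h4 : Real.cos (√μ * (2 * Real.pi)) = 1 := by
      apply mul_right_cancel₀ hpos.ne'
      linarith
    obtain ⟨n, hn⟩ := (Real.cos_eq_one_iff _).mp h4
    have h5 : (n : ℝ) = √μ := mul_right_cancel₀ (by positivity) hn
    have h6 : 0 ≤ n := by exact_mod_cast (h5 ▸ Real.sqrt_nonneg μ : (0 : ℝ) ≤ n)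
    obtain ⟨k, rfl⟩ := Int.eq_ofNat_of_zero_le h6
    have h7 : μ = (k : ℝ) ^ 2 := by rw [← hsq, ← h5]; simp
    refine ⟨k, mem_range.mpr ?_, h7⟩
    have h8 : ‖B (v μ)‖ ≤ K * ‖v μ‖ :=
      (B.le_opNorm _).trans (mul_le_mul_of_nonneg_right hK (norm_nonneg _))
    have h9 : ‖B (v μ)‖ ^ 2 ≤ (K * ‖v μ‖) ^ 2 := by gcongr
    rw [hBB, mul_pow] at h9
    have h10 : (k : ℝ) ^ 2 ≤ (K : ℝ) ^ 2 := h7 ▸ le_of_mul_le_mul_right h9 hpos
    have h11 : (k : ℝ) ≤ K := abs_le_of_sq_le_sq' h10 (by positivity) |>.2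
    have : k ≤ K := by exact_mod_cast h11
    omega
  refine ⟨fun k => v ((k : ℝ) ^ 2), fun k => ⟨_, rfl⟩, fun k => hv _, fun k => ?_, ?_⟩
  · have h1 := real_inner_le_norm w (v ((k : ℝ) ^ 2))
    rw [hin, real_inner_self_eq_norm_sq] at h1
    by_contra h2
    nlinarith [norm_nonneg w, norm_nonneg (v ((k : ℝ) ^ 2))]
  · rw [← sum_image (s := range (K + 1)) (g := fun k : ℕ => (k : ℝ) ^ 2) (f := v)
      (fun k _ l _ h => by
        have : (k : ℝ) = l := (pow_left_inj₀ (by positivity) (by positivity) two_ne_zero).mp h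
        exact_mod_cast this), hw']
    have hz : ∀ μ ∈ v₀.support ∪ image (fun k : ℕ => (k : ℝ) ^ 2) (range (K + 1)),
        μ ∉ image (fun k : ℕ => (k : ℝ) ^ 2) (range (K + 1)) → v μ = 0 := by
      intro μ _ h
      by_contra hne
      obtain ⟨k, hk, rfl⟩ := hint μ hne
      exact h (mem_image.mpr ⟨k, hk, rfl⟩)
    rw [sum_subset (subset_union_left (s₂ := image (fun k : ℕ => (k : ℝ) ^ 2) (range (K + 1))))
      (fun μ _ h => hv0 μ h), sum_subset (subset_union_right (s₁ := v₀.support)) hz]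

end Pool.Agent.Lib.MP_8daebb_an
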