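import Mathlib

/-!
Varifolds as measures on pairs (point, orthogonal projection onto an `m`-plane).
-/

open MeasureTheory Metric Filter Topology
open scoped RealInnerProductSpace

namespace Pool.Agent.Lib.MP_8daebb_an

variable {E : Type*} [NormedAddCommGroup E] [InnerProductSpace ℝ E] [FiniteDimensional ℝ E]
  [MeasurableSpace E] [BorelSpace E]

/-- `P` is the orthogonal projection onto an `m`-dimensional linear subspace. -/
def IsPlane (m : ℕ) (P : E →L[ℝ] E) : Prop :=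
  (∀ x y, ⟪P x, y⟫ = ⟪x, P y⟫) ∧ (∀ x, P (P x) = P x) ∧
    Module.finrank ℝ (LinearMap.range (P : E →ₗ[ℝ] E)) = m

/-- The divergence of `X` at the point `z.1` along the plane with projection `z.2`. -/
noncomputable def tanDiv (X : E → E) (z : E × (E →L[ℝ] E)) : ℝ :=
  LinearMap.trace ℝ E ((z.2.comp (fderiv ℝ X z.1) : E →L[ℝ] E) : E →ₗ[ℝ] E)

/-- A stationary `m`-dimensional varifold in the open set `U`. -/
structure IsStationaryVarifold (m : ℕ) (U : Set E) (V : Measure (E × (E →L[ℝ] E))) : Prop where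
  carried : ∀ᵐ z ∂V, z.1 ∈ U ∧ IsPlane m z.2
  radon : ∀ K, IsCompact K → K ⊆ U → V.fst K < ⊤
  stationary : ∀ X : E → E, ContDiff ℝ 1 X → HasCompactSupport X → tsupport X ⊆ U →
    ∫ z, tanDiv X z ∂V = 0

/-- The volume of the unit ball of `ℝ^m`. -/
noncomputable def omega (m : ℕ) : ℝ :=
  (volume (ball (0 : EuclideanSpace ℝ (Fin m)) 1)).toReal

/-- The `m`-dimensional density of `μ` at `x` exists and equals `θ`. -/
def HasDensity (m : ℕ) (μ : Measure E) (x : E) (θ : ℝ) : Prop :=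
  Tendsto (fun r : ℝ => (μ (ball x r)).toReal / (omega m * r ^ m)) (𝓝[>] 0) (𝓝 θ)

/-- The blow-ups of `μ` at `x₀` converge weakly-star to `θ` times the `m`-dimensional measure on
the plane `ι(ℝ^m)`. -/
def HasFlatTangent (m : ℕ) (μ : Measure E) (x₀ : E) (θ : ℝ)
    (ι : EuclideanSpace ℝ (Fin m) →ₗᵢ[ℝ] E) : Prop :=
  ∀ φ : E → ℝ, Continuous φ → HasCompactSupport φ →
    Tendsto (fun r : ℝ => (∫ y, φ (r⁻¹ • (y - x₀)) ∂μ) / r ^ m) (𝓝[>] 0)
      (𝓝 (θ * ∫ p, φ (ι p)))

end Pool.Agent.Lib.MP_8daebb_an
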