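import Pool.Agent.Lib.MP_8daebb_an.Mono

/-! Height bound and the existence of fibres with at most one point. -/

set_option linter.unusedSectionVars false

open MeasureTheory Metric Filter Topology Set
open scoped RealInnerProductSpace ENNReal

namespace Pool.Agent.Lib.MP_8daebb_an

variable {E : Type*} [NormedAddCommGroup E] [InnerProductSpace ℝ E] [FiniteDimensional ℝ E]

section proj

variable {F : Type*} [NormedAddCommGroup F] [InnerProductSpace ℝ F] [FiniteDimensional ℝ F]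

/-- coordinates along the plane -/
noncomputable def pr (ι : F →ₗᵢ[ℝ] E) : E →L[ℝ] F :=
  LinearMap.toContinuousLinearMap (LinearMap.adjoint ι.toLinearMap)

lemma inner_pr (ι : F →ₗᵢ[ℝ] E) (x : E) (p : F) : ⟪pr ι x, p⟫ = ⟪x, ι p⟫ :=
  LinearMap.adjoint_inner_left ι.toLinearMap p x

lemma pr_iota (ι : F →ₗᵢ[ℝ] E) (p : F) : pr ι (ι p) = p :=
  ext_inner_right ℝ fun q => by rw [inner_pr, ι.inner_map_map]

/-- normal component -/
noncomputable def nr (ι : F →ₗᵢ[ℝ] E) : E →L[ℝ] E :=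
  ContinuousLinearMap.id ℝ E - ι.toContinuousLinearMap.comp (pr ι)

lemma nr_apply (ι : F →ₗᵢ[ℝ] E) (x : E) : nr ι x = x - ι (pr ι x) := rfl

lemma iota_pr_add_nr (ι : F →ₗᵢ[ℝ] E) (x : E) : ι (pr ι x) + nr ι x = x := by
  rw [nr_apply]; abel

lemma inner_nr_iota (ι : F →ₗᵢ[ℝ] E) (x : E) (p : F) : ⟪nr ι x, ι p⟫ = 0 := by
  rw [nr_apply, inner_sub_left, ι.inner_map_map, inner_pr, sub_self]

lemma nr_iota (ι : F →ₗᵢ[ℝ] E) (p : F) : nr ι (ι p) = 0 := by
  rw [nr_apply, pr_iota, sub_self]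

lemma pr_eq_zero (ι : F →ₗᵢ[ℝ] E) {w : E} (h : ∀ p, ⟪w, ι p⟫ = 0) : pr ι w = 0 :=
  ext_inner_right ℝ fun q => by rw [inner_pr, h, inner_zero_left]

lemma nr_eq_self (ι : F →ₗᵢ[ℝ] E) {w : E} (h : ∀ p, ⟪w, ι p⟫ = 0) : nr ι w = w := by
  rw [nr_apply, pr_eq_zero ι h, map_zero, sub_zero]

lemma norm_sq_eq (ι : F →ₗᵢ[ℝ] E) (x : E) : ‖x‖ ^ 2 = ‖pr ι x‖ ^ 2 + ‖nr ι x‖ ^ 2 := by
  conv_lhs => rw [← iota_pr_add_nr ι x]
  rw [norm_add_sq_real, real_inner_comm, inner_nr_iota, ι.norm_map]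
  ring

lemma norm_pr_le (ι : F →ₗᵢ[ℝ] E) (x : E) : ‖pr ι x‖ ≤ ‖x‖ :=
  abs_le_of_sq_le_sq' (by rw [norm_sq_eq ι x]; nlinarith [sq_nonneg ‖nr ι x‖]) (norm_nonneg _) |>.2

lemma norm_nr_le (ι : F →ₗᵢ[ℝ] E) (x : E) : ‖nr ι x‖ ≤ ‖x‖ :=
  abs_le_of_sq_le_sq' (by rw [norm_sq_eq ι x]; nlinarith [sq_nonneg ‖pr ι x‖]) (norm_nonneg _) |>.2

lemma norm_le_pr_add_nr (ι : F →ₗᵢ[ℝ] E) (x : E) : ‖x‖ ≤ ‖pr ι x‖ + ‖nr ι x‖ := by
  conv_lhs => rw [← iota_pr_add_nr ι x]
  refine (norm_add_le _ _).trans ?_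
  rw [ι.norm_map]

/-- open cylinder -/
def cyl (ι : F →ₗᵢ[ℝ] E) (x₀ : E) (ρ : ℝ) : Set E :=
  {x | ‖pr ι (x - x₀)‖ < ρ ∧ ‖nr ι (x - x₀)‖ < ρ}

lemma isOpen_cyl (ι : F →ₗᵢ[ℝ] E) (x₀ : E) (ρ : ℝ) : IsOpen (cyl ι x₀ ρ) :=
  IsOpen.and (isOpen_lt (by fun_prop) continuous_const) (isOpen_lt (by fun_prop) continuous_const)

lemma cyl_subset (ι : F →ₗᵢ[ℝ] E) (x₀ : E) (ρ : ℝ) : cyl ι x₀ ρ ⊆ ball x₀ (2 * ρ) := by
  intro x hx
  rw [mem_ball, dist_eq_norm]
  have := norm_le_pr_add_nr ι (x - x₀)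
  linarith [hx.1, hx.2]

lemma closure_cyl (ι : F →ₗᵢ[ℝ] E) (x₀ : E) (ρ : ℝ) :
    closure (cyl ι x₀ ρ) ⊆ {x | ‖pr ι (x - x₀)‖ ≤ ρ ∧ ‖nr ι (x - x₀)‖ ≤ ρ} :=
  closure_minimal (fun _ hx => ⟨hx.1.le, hx.2.le⟩)
    (IsClosed.and (isClosed_le (by fun_prop) continuous_const)
      (isClosed_le (by fun_prop) continuous_const))

lemma closure_cyl' (ι : F →ₗᵢ[ℝ] E) (x₀ : E) (ρ : ℝ) :
    closure (cyl ι x₀ ρ) ⊆ closedBall x₀ (2 * ρ) :=
  closure_minimal ((cyl_subset ι x₀ ρ).trans ball_subset_closedBall) isClosed_closedBall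

lemma ball_subset_cyl (ι : F →ₗᵢ[ℝ] E) (x₀ : E) (ρ : ℝ) : ball x₀ ρ ⊆ cyl ι x₀ ρ := by
  intro x hx
  rw [mem_ball, dist_eq_norm] at hx
  exact ⟨(norm_pr_le ι _).trans_lt hx, (norm_nr_le ι _).trans_lt hx⟩

end proj

variable [MeasurableSpace E] [BorelSpace E]
variable {m : ℕ} {U : Set E} {V : Measure (E × (E →L[ℝ] E))}

theorem IsStationaryVarifold.height (hV : IsStationaryVarifold m U V) (hUo : IsOpen U)
    (h1 : ∀ᵐ x ∂V.fst, ∃ θ, 1 ≤ θ ∧ HasDensity m V.fst x θ) {x₀ : E} (hx₀ : x₀ ∈ U) {Q : ℝ}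
    {ι : EuclideanSpace ℝ (Fin m) →ₗᵢ[ℝ] E} (ht : HasFlatTangent m V.fst x₀ Q ι) {ε : ℝ}
    (hε : 0 < ε) (hε1 : ε ≤ 1) :
    ∀ᶠ ρ in 𝓝[>] (0 : ℝ), ∀ x ∈ V.fst.support, x ∈ closedBall x₀ (2 * ρ) →
      ‖nr ι (x - x₀)‖ ≤ ε * ρ := by
  let φ : E → ℝ := fun y => max (4 - ‖y‖) 0 * ‖nr ι y‖
  have hφ : Continuous φ := by fun_prop
  have hφ0 : ∀ y, 0 ≤ φ y := fun y => mul_nonneg (le_max_right _ _) (norm_nonneg _)
  have hφs : ∀ y, y ∉ closedBall (0 : E) 4 → φ y = 0 := by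
    intro y hy
    rw [mem_closedBall, dist_zero_right, not_le] at hy
    simp only [φ, max_eq_right (by linarith : 4 - ‖y‖ ≤ 0), zero_mul]
  have hφc : HasCompactSupport φ := HasCompactSupport.intro (isCompact_closedBall 0 4) hφs
  have h2 := ht φ hφ hφc
  simp only [φ, nr_iota, norm_zero, mul_zero, integral_zero] at h2
  have hω := omega_pos m
  obtain ⟨R, hR, hRU⟩ := Metric.isOpen_iff.mp hUo x₀ hx₀
  filter_upwards [h2.eventually (gt_mem_nhds (by positivity : 0 < ε / 2 * (omega m * (ε / 2) ^ m))),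
    Ioo_mem_nhdsGT (by positivity : 0 < R / 5)] with ρ hρ hρ' x hx hx'
  have hρ0 := hρ'.1
  by_contra hlt
  rw [not_le] at hlt
  have hK : closedBall x₀ (4 * ρ) ⊆ U := (closedBall_subset_ball (by linarith [hρ'.2])).trans hRU
  have hερ : ε * ρ ≤ ρ := by nlinarith
  have hsub : closedBall x (ε / 2 * ρ) ⊆ closedBall x₀ (3 * ρ) :=
    closedBall_subset_closedBall' (by rw [mem_closedBall] at hx'; nlinarith)
  have hK' : closedBall x (ε / 2 * ρ) ⊆ U :=
    hsub.trans ((closedBall_subset_closedBall (by linarith)).trans hK)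
  have h3 := hV.mass_ge_of_support h1 hx (by positivity : 0 < ε / 2 * ρ) hK' hUo
  have hint : Integrable (fun y => φ (ρ⁻¹ • (y - x₀))) V.fst := by
    obtain ⟨C, hC⟩ := hφ.bounded_above_of_compact_support hφc
    rw [← integrableOn_iff_integrable_of_support_subset (s := closedBall x₀ (4 * ρ))]
    · exact Measure.integrableOn_of_bounded (hV.radon _ (isCompact_closedBall _ _) hK).ne
        (Continuous.aestronglyMeasurable (by fun_prop)) (Eventually.of_forall fun y => hC _)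
    · intro y hy
      by_contra hy'
      apply hy
      apply hφs
      rw [mem_closedBall, dist_eq_norm, not_le] at hy'
      rw [mem_closedBall, dist_zero_right, not_le, norm_smul, Real.norm_eq_abs,
        abs_of_pos (inv_pos.mpr hρ0), lt_inv_mul_iff₀ hρ0]
      linarith
  have h4 : ε / 2 * (V.fst (ball x (ε / 2 * ρ))).toReal ≤ ∫ y, φ (ρ⁻¹ • (y - x₀)) ∂V.fst := by
    rw [← measureReal_def, ← integral_indicator_one measurableSet_ball, ← integral_const_mul]
    refine integral_mono (((integrable_indicator_iff measurableSet_ball).mpr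
      (integrableOn_const (hV.ball_lt_top hK').ne)).const_mul _) hint fun y => ?_
    by_cases hy : y ∈ ball x (ε / 2 * ρ)
    · simp only [Set.indicator_of_mem hy, Pi.one_apply, mul_one, φ]
      have h5 : ‖y - x₀‖ ≤ 3 * ρ := by
        have := hsub (ball_subset_closedBall hy)
        rwa [mem_closedBall, dist_eq_norm] at this
      have h6 : ε / 2 * ρ ≤ ‖nr ι (y - x₀)‖ := by
        have e1 : nr ι (x - x₀) = nr ι (y - x₀) + nr ι (x - y) := by rw [← map_add]; congr 1; abel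
        have e2 := norm_add_le (nr ι (y - x₀)) (nr ι (x - y))
        have e3 := norm_nr_le ι (x - y)
        rw [mem_ball, dist_comm, dist_eq_norm] at hy
        rw [← e1] at e2
        linarith
      rw [map_smul, norm_smul, norm_smul, Real.norm_eq_abs, abs_of_pos (inv_pos.mpr hρ0)]
      have h7 : 1 ≤ max (4 - ρ⁻¹ * ‖y - x₀‖) 0 := by
        refine le_max_of_le_left ?_
        have : ρ⁻¹ * ‖y - x₀‖ ≤ 3 := by rw [inv_mul_le_iff₀ hρ0]; linarith
        linarith
      have h8 : ε / 2 ≤ ρ⁻¹ * ‖nr ι (y - x₀)‖ := by rw [le_inv_mul_iff₀ hρ0]; linarith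
      nlinarith
    · simp only [Set.indicator_of_notMem hy, mul_zero]
      exact hφ0 _
  rw [div_lt_iff₀ (by positivity)] at hρ
  have h9 : ε / 2 * (omega m * (ε / 2 * ρ) ^ m) ≤ ε / 2 * (V.fst (ball x (ε / 2 * ρ))).toReal := by
    gcongr
  rw [mul_pow] at h9
  simp only [φ] at h4
  nlinarith

lemma vol_closedBall (m : ℕ) (p : EuclideanSpace ℝ (Fin m)) {s : ℝ} (hs : 0 ≤ s) :
    volume (closedBall p s) = ENNReal.ofReal (omega m * s ^ m) := by
  rw [Measure.addHaar_closedBall _ _ hs, finrank_euclideanSpace_fin, mul_comm (omega m),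
    ENNReal.ofReal_mul (by positivity), omega, ENNReal.ofReal_toReal measure_ball_lt_top.ne]

lemma vol_ball (m : ℕ) (p : EuclideanSpace ℝ (Fin m)) {s : ℝ} (hs : 0 < s) :
    volume (ball p s) = ENNReal.ofReal (omega m * s ^ m) := by
  rw [Measure.addHaar_ball_of_pos _ _ hs, finrank_euclideanSpace_fin, mul_comm (omega m),
    ENNReal.ofReal_mul (by positivity), omega, ENNReal.ofReal_toReal measure_ball_lt_top.ne]

theorem IsStationaryVarifold.good_fibre (hV : IsStationaryVarifold m U V) (hUo : IsOpen U)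
    (hm : 0 < m) (h1 : ∀ᵐ x ∂V.fst, ∃ θ, 1 ≤ θ ∧ HasDensity m V.fst x θ) {x₀ : E} (hx₀ : x₀ ∈ U)
    {Q : ℝ} (hQ : 0 < Q) (hd : HasDensity m V.fst x₀ Q)
    {ι : EuclideanSpace ℝ (Fin m) →ₗᵢ[ℝ] E} (ht : HasFlatTangent m V.fst x₀ Q ι)
    (hbad : Tendsto (fun r : ℝ => (V.fst ({x | ¬HasDensity m V.fst x Q} ∩ ball x₀ r)).toReal /
      r ^ m) (𝓝[>] 0) (𝓝 0)) :
    ∀ᶠ R in 𝓝[>] (0 : ℝ), ∃ p : EuclideanSpace ℝ (Fin m), 0 < ‖p‖ ∧ ‖p‖ < R ∧
      ∀ x ∈ V.fst.support, ∀ y ∈ V.fst.support, x ∈ cyl ι x₀ R → y ∈ cyl ι x₀ R →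
        pr ι (x - x₀) = p → pr ι (y - x₀) = p → x = y := by
  have hω := omega_pos m
  obtain ⟨ε, hε, hε0, hε1⟩ : ∃ ε : ℝ, (Q + ε) * (omega m * (1 + ε) ^ m) + 2 * Q * (ε * 2 ^ m) <
      2 * Q * omega m ∧ 0 < ε ∧ ε < 1 := by
    have h2 : Tendsto (fun ε : ℝ => (Q + ε) * (omega m * (1 + ε) ^ m) + 2 * Q * (ε * 2 ^ m))
        (𝓝[>] 0) (𝓝 ((Q + 0) * (omega m * (1 + 0) ^ m) + 2 * Q * (0 * 2 ^ m))) :=
      (Continuous.tendsto (by fun_prop) 0).mono_left nhdsWithin_le_nhds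
    have h3 := h2.eventually (gt_mem_nhds (show _ < 2 * Q * omega m by simp; nlinarith))
    obtain ⟨ε, h4, h5⟩ := (h3.and (Ioo_mem_nhdsGT (zero_lt_one' ℝ))).exists
    exact ⟨ε, h4, h5.1, h5.2⟩
  have hscale : ∀ c : ℝ, 0 < c → Tendsto (fun σ : ℝ => c * σ) (𝓝[>] 0) (𝓝[>] 0) := by
    intro c hc
    refine tendsto_nhdsWithin_iff.mpr ⟨?_, ?_⟩
    · have : Tendsto (fun σ : ℝ => c * σ) (𝓝 0) (𝓝 (c * 0)) :=
        (continuous_const.mul continuous_id).tendsto 0
      rw [mul_zero] at this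
      exact this.mono_left nhdsWithin_le_nhds
    · filter_upwards [self_mem_nhdsWithin] with σ hσ
      exact mul_pos hc hσ
  obtain ⟨R₀, hR₀, hRU⟩ := Metric.isOpen_iff.mp hUo x₀ hx₀
  filter_upwards [hV.height hUo h1 hx₀ ht hε0 hε1.le,
    (hd.comp (hscale (1 + ε) (by positivity))).eventually (gt_mem_nhds (by linarith : Q < Q + ε)),
    (hbad.comp (hscale 2 two_pos)).eventually (gt_mem_nhds hε0),
    Ioo_mem_nhdsGT (by positivity : 0 < R₀ / 3)] with R hh hup hb hR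
  have hR0 := hR.1
  have hK : closedBall x₀ (2 * R) ⊆ U := (closedBall_subset_ball (by linarith [hR.2])).trans hRU
  have hCb := cyl_subset ι x₀ R
  have hCo := isOpen_cyl ι x₀ R
  have hfin2 := hV.ball_lt_top hK
  by_contra hcon
  push Not at hcon
  set μ := V.fst with hμ
  set C := cyl ι x₀ R with hC
  let B := toMeasurable μ ({x | ¬HasDensity m μ x Q} ∩ ball x₀ (2 * R))
  have hBm : MeasurableSet B := measurableSet_toMeasurable _ _
  let T : E → EuclideanSpace ℝ (Fin m) := fun x => pr ι (x - x₀)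
  have hT : Measurable T := (by fun_prop : Continuous T).measurable
  have hCfin : μ C < ⊤ := (measure_mono hCb).trans_lt hfin2
  let ν₁ := (μ.restrict C).map T
  let ν₂ := (μ.restrict (C ∩ B)).map T
  have hν₁ : ν₁ univ ≤ ENNReal.ofReal ((Q + ε) * (omega m * ((1 + ε) * R) ^ m)) := by
    rw [Measure.map_apply hT MeasurableSet.univ, preimage_univ, Measure.restrict_apply_univ]
    have h2 : μ C ≤ μ (ball x₀ ((1 + ε) * R)) := by
      refine measure_mono_ae ?_
      filter_upwards [Measure.support_mem_ae (μ := μ)] with x hx hxC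
      have h3 := hh x hx (ball_subset_closedBall (hCb hxC))
      have h4 := norm_le_pr_add_nr ι (x - x₀)
      change x ∈ ball x₀ ((1 + ε) * R)
      rw [mem_ball, dist_eq_norm]
      linarith [hxC.1]
    refine h2.trans ?_
    have h5 : μ (ball x₀ ((1 + ε) * R)) < ⊤ :=
      (measure_mono (ball_subset_ball (by nlinarith))).trans_lt hfin2
    rw [← ENNReal.ofReal_toReal h5.ne]
    apply ENNReal.ofReal_le_ofReal
    simp only [Function.comp_apply] at hup
    rw [div_lt_iff₀ (by positivity)] at hup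
    exact hup.le
  have hν₂ : ν₂ univ ≤ ENNReal.ofReal (ε * (2 * R) ^ m) := by
    rw [Measure.map_apply hT MeasurableSet.univ, preimage_univ, Measure.restrict_apply_univ]
    refine (measure_mono inter_subset_right).trans ?_
    rw [measure_toMeasurable]
    have h5 : μ ({x | ¬HasDensity m μ x Q} ∩ ball x₀ (2 * R)) < ⊤ :=
      (measure_mono inter_subset_right).trans_lt hfin2
    rw [← ENNReal.ofReal_toReal h5.ne]
    apply ENNReal.ofReal_le_ofReal
    simp only [Function.comp_apply] at hb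
    rw [div_lt_iff₀ (by positivity)] at hb
    exact hb.le
  have : IsFiniteMeasure ν₁ := ⟨hν₁.trans_lt ENNReal.ofReal_lt_top⟩
  have : IsFiniteMeasure ν₂ := ⟨hν₂.trans_lt ENNReal.ofReal_lt_top⟩
  have : Nonempty (Fin m) := ⟨⟨0, hm⟩⟩
  have hkey : ∀ᵐ p ∂(volume.restrict (ball (0 : EuclideanSpace ℝ (Fin m)) R)),
      ENNReal.ofReal (2 * Q) ≤ ν₁.rnDeriv volume p +
        ENNReal.ofReal (2 * Q) * ν₂.rnDeriv volume p := by
    rw [ae_restrict_iff' measurableSet_ball]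
    have h0 : ∀ᵐ p : EuclideanSpace ℝ (Fin m), p ≠ 0 := by
      rw [ae_iff]
      simp
    filter_upwards [Besicovitch.ae_tendsto_rnDeriv ν₁ volume,
      Besicovitch.ae_tendsto_rnDeriv ν₂ volume, h0] with p hp1 hp2 hp0 hpR
    rcases le_or_gt 1 (ν₂.rnDeriv volume p) with hD | hD
    · exact le_add_left (le_mul_of_one_le_right' hD)
    refine le_add_right ?_
    obtain ⟨x, hx, y, hy, hxC, hyC, hxp, hyp, hxy⟩ :=
      hcon p (norm_pos_iff.mpr hp0) (by simpa using hpR)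
    have hsub : ∀ z, T z = p → ∀ s, ball z s ⊆ T ⁻¹' closedBall p s := by
      intro z hz s w hw
      rw [mem_preimage, mem_closedBall, dist_eq_norm, ← hz]
      rw [mem_ball, dist_eq_norm] at hw
      have : T w - T z = pr ι (w - z) := by
        simp only [T]
        rw [← map_sub]
        congr 1
        abel
      rw [this]
      exact (norm_pr_le ι _).trans hw.le
    have hmass : ∀ z ∈ μ.support, z ∈ C → T z = p → ∀ᶠ s in 𝓝[>] (0 : ℝ), ball z s ⊆ C ∧
        ENNReal.ofReal (Q * omega m * s ^ m) ≤ μ (ball z s) := by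
      intro z hz hzC hzp
      obtain ⟨s₀, hs₀, hs₀C⟩ := Metric.isOpen_iff.mp hCo z hzC
      have hcb : ∀ s ∈ Ioo 0 s₀, closedBall z s ⊆ U := fun s hs =>
        (closedBall_subset_ball hs.2).trans (hs₀C.trans (hCb.trans (ball_subset_closedBall.trans hK)))
      have hnear : ∀ η > 0, ∃ y ∈ ball z η, ∃ θ', Q ≤ θ' ∧ HasDensity m μ y θ' := by
        intro η hη
        obtain ⟨s, hs1, hs2, hs3⟩ := ((hp2.eventually (gt_mem_nhds hD)).and
          (Filter.Eventually.and (p := fun s => s ∈ Ioo 0 s₀) (q := fun s => s ∈ Ioo 0 η)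
            (Ioo_mem_nhdsGT hs₀) (Ioo_mem_nhdsGT hη))).exists
        have hs0 := hs2.1
        have hsC : ball z s ⊆ C := (ball_subset_ball hs2.2.le).trans hs₀C
        have hnot : ¬ball z s ⊆ B := by
          intro hsB
          have h2 : μ (ball z s) ≤ ν₂ (closedBall p s) := by
            rw [Measure.map_apply hT measurableSet_closedBall,
              Measure.restrict_apply (hT measurableSet_closedBall)]
            exact measure_mono (subset_inter (hsub z hzp s) (subset_inter hsC hsB))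
          have h3 := hV.mass_ge_of_support h1 hz hs0 (hcb s hs2) hUo
          rw [vol_closedBall m p hs0.le, ENNReal.div_lt_iff (Or.inl (by simp; positivity))
            (Or.inl ENNReal.ofReal_ne_top), one_mul] at hs1
          have h4 := ENNReal.ofReal_le_of_le_toReal h3
          exact absurd (h4.trans h2) (not_le.mpr hs1)
        obtain ⟨w, hw1, hw2⟩ := not_subset.mp hnot
        refine ⟨w, ball_subset_ball hs3.2.le hw1, Q, le_rfl, ?_⟩
        by_contra hw3
        exact hw2 (subset_toMeasurable _ _ ⟨hw3, hCb (hsC hw1)⟩)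
      filter_upwards [Ioo_mem_nhdsGT hs₀] with s hs
      exact ⟨(ball_subset_ball hs.2.le).trans hs₀C, ENNReal.ofReal_le_of_le_toReal
        (hV.mass_ge_of_near hnear hs.1 (hcb s hs) hUo)⟩
    refine ge_of_tendsto hp1 ?_
    filter_upwards [hmass x hx hxC hxp, hmass y hy hyC hyp,
      Ioo_mem_nhdsGT (half_pos (dist_pos.mpr hxy))] with s hs1 hs2 hs3
    have hs0 := hs3.1
    have hdisj : Disjoint (ball x s) (ball y s) := ball_disjoint_ball (by linarith [hs3.2])
    have h2 : μ (ball x s) + μ (ball y s) ≤ ν₁ (closedBall p s) := by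
      rw [Measure.map_apply hT measurableSet_closedBall,
        Measure.restrict_apply (hT measurableSet_closedBall),
        ← measure_union hdisj measurableSet_ball]
      exact measure_mono (union_subset (subset_inter (hsub x hxp s) hs1.1)
        (subset_inter (hsub y hyp s) hs2.1))
    rw [vol_closedBall m p hs0.le, ENNReal.le_div_iff_mul_le (Or.inl (by simp; positivity))
      (Or.inl ENNReal.ofReal_ne_top), ← ENNReal.ofReal_mul (by positivity)]
    refine le_trans ?_ ((add_le_add hs1.2 hs2.2).trans h2)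
    rw [← ENNReal.ofReal_add (by positivity) (by positivity)]
    exact ENNReal.ofReal_le_ofReal (le_of_eq (by ring))
  have h6 := lintegral_mono_ae hkey
  rw [lintegral_const, Measure.restrict_apply_univ, vol_ball m 0 hR0,
    lintegral_add_left (Measure.measurable_rnDeriv _ _),
    lintegral_const_mul _ (Measure.measurable_rnDeriv _ _)] at h6
  have h7 : ∫⁻ p in ball (0 : EuclideanSpace ℝ (Fin m)) R, ν₁.rnDeriv volume p ≤ ν₁ univ :=
    (setLIntegral_le_lintegral _ _).trans Measure.lintegral_rnDeriv_le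
  have h8 : ∫⁻ p in ball (0 : EuclideanSpace ℝ (Fin m)) R, ν₂.rnDeriv volume p ≤ ν₂ univ :=
    (setLIntegral_le_lintegral _ _).trans Measure.lintegral_rnDeriv_le
  have h9 := h6.trans (add_le_add (h7.trans hν₁) (mul_le_mul_right (h8.trans hν₂) _))
  rw [← ENNReal.ofReal_mul (by positivity), ← ENNReal.ofReal_mul (by positivity),
    ← ENNReal.ofReal_add (by positivity) (by positivity),
    ENNReal.ofReal_le_ofReal_iff (by positivity), mul_pow, mul_pow] at h9
  have h10 := mul_lt_mul_of_pos_right hε (by positivity : 0 < R ^ m)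
  nlinarith

end Pool.Agent.Lib.MP_8daebb_an
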