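import Pool.Agent.Lib.MP_8daebb_an.Defs

/-! Tangential divergence in an orthonormal frame; integrability. -/

open MeasureTheory Metric Filter Topology
open scoped RealInnerProductSpace

namespace Pool.Agent.Lib.MP_8daebb_an

variable {E : Type*} [NormedAddCommGroup E] [InnerProductSpace ℝ E] [FiniteDimensional ℝ E]

lemma IsPlane.exists_frame {m : ℕ} {P : E →L[ℝ] E} (h : IsPlane m P) :
    ∃ e : Fin m → E, Orthonormal ℝ e ∧ ∀ A : E →L[ℝ] E,
      LinearMap.trace ℝ E ((P.comp A : E →L[ℝ] E) : E →ₗ[ℝ] E) = ∑ i, ⟪e i, A (e i)⟫ := by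
  obtain ⟨hs, hi, hr⟩ := h
  let K := LinearMap.range (P : E →ₗ[ℝ] E)
  let b : OrthonormalBasis (Fin m) ℝ K := (stdOrthonormalBasis ℝ K).reindex (finCongr hr)
  have hP : ∀ x, P x = ∑ i, ⟪(b i : E), x⟫ • (b i : E) := by
    intro x
    have h1 := congrArg (fun v : K => (v : E)) (b.sum_repr' ⟨P x, ⟨x, rfl⟩⟩)
    simp only [Submodule.coe_sum, Submodule.coe_smul, Submodule.coe_inner] at h1
    rw [← h1]
    refine Finset.sum_congr rfl fun i _ => ?_
    obtain ⟨y, hy⟩ := (b i).2
    have : P (b i : E) = b i := by rw [← hy]; exact hi y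
    rw [← hs, this]
  refine ⟨fun i => (b i : E), ?_, fun A => ?_⟩
  · exact b.orthonormal.comp_linearIsometry K.subtypeₗᵢ
  · have : ((P.comp A : E →L[ℝ] E) : E →ₗ[ℝ] E) =
        ∑ i, LinearMap.smulRight ((innerₛₗ ℝ (b i : E)).comp (A : E →ₗ[ℝ] E)) (b i : E) := by
      ext x
      simp [hP, LinearMap.sum_apply]
    rw [this, map_sum]
    refine Finset.sum_congr rfl fun i _ => ?_
    rw [LinearMap.trace_smulRight]
    rfl

lemma continuous_tanDiv {X : E → E} (hX : ContDiff ℝ 1 X) : Continuous (tanDiv X) := by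
  let T : (E →L[ℝ] E) →ₗ[ℝ] ℝ := (LinearMap.trace ℝ E).comp (ContinuousLinearMap.coeLM ℝ)
  have hT : Continuous T := T.continuous_of_finiteDimensional
  have h1 : Continuous fun z : E × (E →L[ℝ] E) => z.2.comp (fderiv ℝ X z.1) :=
    continuous_snd.clm_comp ((hX.continuous_fderiv one_ne_zero).comp continuous_fst)
  exact hT.comp h1

lemma abs_tanDiv_le {m : ℕ} (X : E → E) (z : E × (E →L[ℝ] E)) (h : IsPlane m z.2) :
    |tanDiv X z| ≤ m * ‖fderiv ℝ X z.1‖ := by
  obtain ⟨e, he, ht⟩ := h.exists_frame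
  rw [tanDiv, ht]
  refine (Finset.abs_sum_le_sum_abs _ _).trans ?_
  have : ∀ i ∈ Finset.univ, |⟪e i, fderiv ℝ X z.1 (e i)⟫| ≤ ‖fderiv ℝ X z.1‖ := by
    intro i _
    refine (abs_real_inner_le_norm _ _).trans ?_
    have := (fderiv ℝ X z.1).le_opNorm (e i)
    rw [he.1 i] at this ⊢
    linarith
  simpa using Finset.sum_le_card_nsmul _ _ _ this

variable [MeasurableSpace E] [BorelSpace E]

/-- bounded measurable functions carried by a compact subset of `U` are integrable -/
lemma IsStationaryVarifold.integrable_of_bound {m : ℕ} {U : Set E}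
    {V : Measure (E × (E →L[ℝ] E))} (hV : IsStationaryVarifold m U V) {K : Set E}
    (hK : IsCompact K) (hKU : K ⊆ U) {F : E × (E →L[ℝ] E) → ℝ} (hF : AEStronglyMeasurable F V)
    (C : ℝ) (h1 : ∀ z, IsPlane m z.2 → |F z| ≤ C) (h2 : ∀ z, z.1 ∉ K → F z = 0) :
    Integrable F V := by
  have hm : MeasurableSet (Prod.fst ⁻¹' K : Set (E × (E →L[ℝ] E))) :=
    measurable_fst hK.measurableSet
  have hfin : V (Prod.fst ⁻¹' K) < ⊤ := by
    have := hV.radon K hK hKU
    rwa [Measure.fst_apply hK.measurableSet] at this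
  have hb : Integrable ((Prod.fst ⁻¹' K : Set (E × (E →L[ℝ] E))).indicator fun _ => C) V :=
    (integrable_indicator_iff hm).mpr (integrableOn_const hfin.ne)
  refine hb.mono' hF ?_
  filter_upwards [hV.carried] with z hz
  by_cases hzK : z.1 ∈ K
  · rw [Set.indicator_of_mem (by exact hzK)]
    exact h1 z hz.2
  · rw [Set.indicator_of_notMem (by exact hzK), h2 z hzK, norm_zero]

lemma IsStationaryVarifold.integrable_tanDiv {m : ℕ} {U : Set E}
    {V : Measure (E × (E →L[ℝ] E))} (hV : IsStationaryVarifold m U V) {X : E → E}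
    (hX : ContDiff ℝ 1 X) (hc : HasCompactSupport X) (hU : tsupport X ⊆ U) :
    Integrable (tanDiv X) V := by
  obtain ⟨C, hC⟩ := (hX.continuous_fderiv one_ne_zero).bounded_above_of_compact_support
    (hc.fderiv ℝ)
  refine hV.integrable_of_bound hc hU (continuous_tanDiv hX).aestronglyMeasurable (m * C)
    (fun z hz => (abs_tanDiv_le X z hz).trans (by gcongr; exact hC _)) ?_
  intro z hz
  have : fderiv ℝ X z.1 = 0 := by
    by_contra hne
    exact hz (tsupport_fderiv_subset ℝ (subset_tsupport _ hne))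
  simp [tanDiv, this]

/-- If the tangential divergence is nonnegative on the support, it vanishes almost everywhere. -/
lemma IsStationaryVarifold.ae_eq_zero_of_nonneg {m : ℕ} {U : Set E}
    {V : Measure (E × (E →L[ℝ] E))} (hV : IsStationaryVarifold m U V) {X : E → E}
    (hX : ContDiff ℝ 1 X) (hc : HasCompactSupport X) (hU : tsupport X ⊆ U)
    (h : ∀ z : E × (E →L[ℝ] E), z.1 ∈ V.fst.support → IsPlane m z.2 → 0 ≤ tanDiv X z) :
    ∀ᵐ z ∂V, tanDiv X z = 0 := by
  have h1 : ∀ᵐ z ∂V, z.1 ∈ V.fst.support :=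
    ae_of_ae_map measurable_fst.aemeasurable (Measure.support_mem_ae (μ := V.fst))
  have h2 : 0 ≤ᵐ[V] tanDiv X := by
    filter_upwards [h1, hV.carried] with z hz hz'
    exact h z hz hz'.2
  exact (integral_eq_zero_iff_of_nonneg_ae h2 (hV.integrable_tanDiv hX hc hU)).mp
    (hV.stationary X hX hc hU)

end Pool.Agent.Lib.MP_8daebb_an
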