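import Pool.Agent.Lib.MP_8daebb_an.Defs

/-! The hypotheses and the conclusion of the question, as named definitions. -/

open MeasureTheory Metric Filter Topology Set
open scoped RealInnerProductSpace ContDiff

namespace Pool.Agent.Lib.MP_8daebb_an

variable {E : Type*} [NormedAddCommGroup E] [InnerProductSpace ℝ E] [FiniteDimensional ℝ E]
  [MeasurableSpace E] [BorelSpace E]

/-- The mass of the set of points whose density is not `Q` is `o(r^m)` in `B_r(x₀)`. -/
def DensityCondition (m : ℕ) (μ : Measure E) (x₀ : E) (Q : ℝ) : Prop :=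
  Tendsto (fun r : ℝ => (μ ({x | ¬HasDensity m μ x Q} ∩ ball x₀ r)).toReal / r ^ m) (𝓝[>] 0) (𝓝 0)

/-- The measure restricted to `B_R(x₀)` is invariant under `x ↦ x₀ + g (x - x₀)`. -/
def InvariantNear (μ : Measure E) (x₀ : E) (R : ℝ) (g : E → E) : Prop :=
  (μ.restrict (ball x₀ R)).map (fun x => x₀ + g (x - x₀)) = μ.restrict (ball x₀ R)

/-- Near `x₀` the set `S` is the graph over `x₀ + ι(ℝ^m)` of a smooth map into the normal space. -/
def SmoothGraphNear {m : ℕ} (S : Set E) (x₀ : E) (ι : EuclideanSpace ℝ (Fin m) →ₗᵢ[ℝ] E) : Prop :=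
  ∃ r > 0, ∃ f : EuclideanSpace ℝ (Fin m) → E, ContDiff ℝ ∞ f ∧ (∀ p q, ⟪f p, ι q⟫ = 0) ∧
    S ∩ ball x₀ r = (range fun p => x₀ + ι p + f p) ∩ ball x₀ r

end Pool.Agent.Lib.MP_8daebb_an
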