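import Pool.Agent.Lib.MP_8daebb_an.Slice

/-! Regularity in the presence of a family of symmetries that is transitive on the spheres of
the tangent plane, given an extension property for equivariant boundary data. -/

set_option linter.unusedSectionVars false

open MeasureTheory Metric Filter Topology Set
open scoped RealInnerProductSpace ContDiff

namespace Pool.Agent.Lib.MP_8daebb_an

variable {E : Type*} [NormedAddCommGroup E] [InnerProductSpace ℝ E] [FiniteDimensional ℝ E]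

section
variable {F : Type*} [NormedAddCommGroup F] [InnerProductSpace ℝ F] [FiniteDimensional ℝ F]

lemma normal_map (ι : F →ₗᵢ[ℝ] E) {g : E →L[ℝ] E} (hg : ∀ x y, ⟪g x, g y⟫ = ⟪x, y⟫)
    (hp : ∀ p, ∃ q, g (ι p) = ι q) {w : E} (hw : ∀ p, ⟪w, ι p⟫ = 0) (p : F) : ⟪g w, ι p⟫ = 0 := by
  let T : F →ₗ[ℝ] F := (pr ι : E →ₗ[ℝ] F).comp ((g : E →ₗ[ℝ] E).comp ι.toLinearMap)
  have hT : ∀ a, ι (T a) = g (ι a) := by
    intro a
    obtain ⟨q, hq⟩ := hp a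
    change ι (pr ι (g (ι a))) = _
    rw [hq, pr_iota]
  have hinj : Function.Injective T := by
    rw [injective_iff_map_eq_zero]
    intro a ha
    have h1 := hg (ι a) (ι a)
    rw [← hT, ha, map_zero, inner_zero_left, ι.inner_map_map] at h1
    exact inner_self_eq_zero.mp h1.symm
  obtain ⟨a, rfl⟩ := LinearMap.injective_iff_surjective.mp hinj p
  rw [hT, hg, hw]

lemma norm_map_of_inner {g : E →L[ℝ] E} (hg : ∀ x y, ⟪g x, g y⟫ = ⟪x, y⟫) (x : E) :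
    ‖g x‖ = ‖x‖ := by
  rw [norm_eq_sqrt_real_inner, hg, ← norm_eq_sqrt_real_inner]

lemma pr_nr_map (ι : F →ₗᵢ[ℝ] E) {g : E →L[ℝ] E} (hg : ∀ x y, ⟪g x, g y⟫ = ⟪x, y⟫)
    (hp : ∀ p, ∃ q, g (ι p) = ι q) {x : E} {q : F} (hq : g (ι (pr ι x)) = ι q) :
    pr ι (g x) = q ∧ nr ι (g x) = g (nr ι x) := by
  have h1 : g x = ι q + g (nr ι x) := by rw [← hq, ← map_add, iota_pr_add_nr]
  have h2 := normal_map ι hg hp (inner_nr_iota ι x)
  rw [h1, map_add, map_add, pr_iota, nr_iota, pr_eq_zero ι h2, nr_eq_self ι h2]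
  simp

/-- The data of a small harmonic conformal graph over the disc of radius `ρ`. -/
structure SmallGraph {m : ℕ} (u : OrthonormalBasis (Fin m) ℝ F) (ι : F →ₗᵢ[ℝ] E) (ρ : ℝ)
    (f : F → E) : Prop where
  smooth : ContDiff ℝ ∞ f
  normal : ∀ p q, ⟪f p, ι q⟫ = 0
  conf : ∀ p, ∃ lam, 0 ≤ lam ∧ ∀ a b, ⟪fderiv ℝ f p a, fderiv ℝ f p b⟫ = lam * ⟪a, b⟫
  harm : ∀ p, ∑ j, fderiv ℝ (fderiv ℝ f) p (u j) (u j) = 0
  bound : ∃ η, 16 * (m : ℝ) ^ 3 * η ≤ 1 ∧ ∀ p, ‖p‖ ≤ ρ → ‖f p‖ ≤ ρ ∧ ‖fderiv ℝ f p‖ ≤ η ∧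
    ‖fderiv ℝ (fderiv ℝ f) p‖ ≤ η / ρ

end

variable [MeasurableSpace E] [BorelSpace E]
variable {m : ℕ} {U : Set E} {V : Measure (E × (E →L[ℝ] E))}

lemma support_invariant {μ : Measure E} {x₀ : E} {R : ℝ} {g : E → E} (hg : Continuous g)
    (h : (μ.restrict (ball x₀ R)).map g = μ.restrict (ball x₀ R)) {x : E} (hx : x ∈ μ.support)
    (hxR : x ∈ ball x₀ R) : g x ∈ μ.support := by
  rw [Measure.mem_support_iff_forall] at hx ⊢
  intro N hN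
  obtain ⟨W, hWN, hWo, hW⟩ := _root_.mem_nhds_iff.mp hN
  have h1 : μ.restrict (ball x₀ R) W ≤ μ N :=
    (Measure.restrict_apply_le _ _).trans (measure_mono hWN)
  rw [← h, Measure.map_apply hg.measurable hWo.measurableSet,
    Measure.restrict_apply (hg.measurable hWo.measurableSet)] at h1
  exact (hx _ (((hWo.preimage hg).inter isOpen_ball).mem_nhds ⟨hW, hxR⟩)).trans_le h1

theorem IsStationaryVarifold.regular_of_symmetric (hV : IsStationaryVarifold m U V)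
    (hUo : IsOpen U) (hm : 0 < m)
    (h1 : ∀ᵐ x ∂V.fst, ∃ θ, 1 ≤ θ ∧ HasDensity m V.fst x θ) {x₀ : E} (hx₀ : x₀ ∈ U)
    (hx₀s : x₀ ∈ V.fst.support) {Q : ℝ} (hd : HasDensity m V.fst x₀ Q)
    {ι : EuclideanSpace ℝ (Fin m) →ₗᵢ[ℝ] E} (ht : HasFlatTangent m V.fst x₀ Q ι)
    (hbad : Tendsto (fun r : ℝ => (V.fst ({x | ¬HasDensity m V.fst x Q} ∩ ball x₀ r)).toReal /
      r ^ m) (𝓝[>] 0) (𝓝 0))
    (G : Set (E →L[ℝ] E)) {R₀ : ℝ} (hR₀ : 0 < R₀)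
    (hiso : ∀ g ∈ G, ∀ x y, ⟪g x, g y⟫ = ⟪x, y⟫)
    (hinv : ∀ g ∈ G, (V.fst.restrict (ball x₀ R₀)).map (fun x => x₀ + g (x - x₀)) =
      V.fst.restrict (ball x₀ R₀))
    (hpl : ∀ g ∈ G, ∀ p, ∃ q, g (ι p) = ι q)
    (htr : ∀ p q, ‖p‖ = ‖q‖ → ∃ g ∈ G, g (ι p) = ι q) {ε : ℝ} (hε : 0 < ε) (hε1 : ε < 1)
    (hext : ∀ p, p ≠ 0 → ∀ w, (∀ q, ⟪w, ι q⟫ = 0) → ‖w‖ ≤ ε * ‖p‖ →
      (∀ g ∈ G, g (ι p) = ι p → g w = w) →
      ∃ f, SmallGraph (EuclideanSpace.basisFun (Fin m) ℝ) ι ‖p‖ f ∧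
        ∀ g ∈ G, ∀ q w', g (ι q) = ι p → g w' = w → f q = w') :
    ∃ r > 0, ∃ f : EuclideanSpace ℝ (Fin m) → E, ContDiff ℝ ∞ f ∧ (∀ p q, ⟪f p, ι q⟫ = 0) ∧
      V.fst.support ∩ ball x₀ r = (range fun p => x₀ + ι p + f p) ∩ ball x₀ r := by
  have hω := omega_pos m
  obtain ⟨R₁, hR₁, hRU⟩ := Metric.isOpen_iff.mp hUo x₀ hx₀
  have hQ : 1 ≤ Q := by
    refine ge_of_tendsto hd ?_
    filter_upwards [Ioo_mem_nhdsGT hR₁] with r hr
    have hr0 := hr.1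
    rw [one_le_div (by positivity)]
    exact hV.mass_ge_of_support h1 hx₀s hr.1 ((closedBall_subset_ball hr.2).trans hRU) hUo
  obtain ⟨R₂, hR₂, hh⟩ := (nhdsGT_basis (0 : ℝ)).eventually_iff.mp
    (hV.height hUo h1 hx₀ ht hε hε1.le)
  obtain ⟨R, ⟨p, hp0, hpR, hfib⟩, hR⟩ := ((hV.good_fibre hUo hm h1 hx₀ (by linarith) hd ht
    hbad).and (Ioo_mem_nhdsGT (by positivity : 0 < min R₂ (min (R₀ / 2) (R₁ / 2))))).exists
  have hRR₂ : R < R₂ := hR.2.trans_le (min_le_left _ _)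
  have hRR₀ : R < R₀ / 2 := hR.2.trans_le ((min_le_right _ _).trans (min_le_left _ _))
  have hRR₁ : R < R₁ / 2 := hR.2.trans_le ((min_le_right _ _).trans (min_le_right _ _))
  have hcb : ∀ ρ, ρ < R → closedBall x₀ (2 * ρ) ⊆ U := fun ρ hρ =>
    (closedBall_subset_ball (by linarith)).trans hRU
  -- boundary points of small cylinders
  have hbd : ∀ ρ, 0 < ρ → ρ < R → ∀ x ∈ V.fst.support, x ∈ closure (cyl ι x₀ ρ) →
      x ∉ cyl ι x₀ ρ → ‖pr ι (x - x₀)‖ = ρ ∧ ‖nr ι (x - x₀)‖ ≤ ε * ρ := by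
    intro ρ hρ hρR x hx hx1 hx2
    have h2 := hh ⟨hρ, hρR.trans hRR₂⟩ x hx (closure_cyl' ι x₀ ρ hx1)
    refine ⟨le_antisymm (closure_cyl ι x₀ ρ hx1).1 ?_, h2⟩
    by_contra h3
    exact hx2 ⟨not_le.mp h3, h2.trans_lt (by nlinarith)⟩
  -- moving such a point to a prescribed fibre
  have hmove : ∀ x ∈ V.fst.support, ∀ ρ, ρ < R → x ∈ closure (cyl ι x₀ ρ) → ∀ g ∈ G, ∀ q,
      g (ι (pr ι (x - x₀))) = ι q → ∃ y ∈ V.fst.support, pr ι (y - x₀) = q ∧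
        nr ι (y - x₀) = g (nr ι (x - x₀)) := by
    intro x hx ρ hρ hx1 g hg q hq
    refine ⟨x₀ + g (x - x₀), support_invariant (by fun_prop) (hinv g hg) hx
      (closedBall_subset_ball (by linarith) (closure_cyl' ι x₀ ρ hx1)), ?_⟩
    rw [add_sub_cancel_left]
    exact pr_nr_map ι (hiso g hg) (hpl g hg) hq
  have hne : ∀ ρ, 0 < ρ → ρ < R → ∀ q, ‖q‖ = ρ → ∃ y ∈ V.fst.support, pr ι (y - x₀) = q ∧
      ‖nr ι (y - x₀)‖ ≤ ε * ρ := by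
    intro ρ hρ hρR q hq
    obtain ⟨x, hx, hx1, hx2⟩ := hV.slice_nonempty hm (isOpen_cyl ι x₀ ρ)
      ((isCompact_closedBall x₀ (2 * ρ)).of_isClosed_subset isClosed_closure
        (closure_cyl' ι x₀ ρ))
      ((cyl_subset ι x₀ ρ).trans (ball_subset_closedBall.trans (hcb ρ hρR))) hx₀s
      (ball_subset_cyl ι x₀ ρ (mem_ball_self hρ))
    obtain ⟨h2, h3⟩ := hbd ρ hρ hρR x hx hx1 hx2
    obtain ⟨g, hg, hgq⟩ := htr (pr ι (x - x₀)) q (h2.trans hq.symm)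
    obtain ⟨y, hy, hy1, hy2⟩ := hmove x hx ρ hρR hx1 g hg q hgq
    exact ⟨y, hy, hy1, by rw [hy2, norm_map_of_inner (hiso g hg)]; exact h3⟩
  obtain ⟨y₀, hy₀, hy₁, hy₂⟩ := hne ‖p‖ hp0 hpR p rfl
  have hερ : ε * ‖p‖ < ‖p‖ := by nlinarith
  have huniq : ∀ x ∈ V.fst.support, x ∈ closure (cyl ι x₀ ‖p‖) → ‖nr ι (x - x₀)‖ ≤ ε * ‖p‖ →
      ∀ g ∈ G, g (ι (pr ι (x - x₀))) = ι p → g (nr ι (x - x₀)) = nr ι (y₀ - x₀) := by
    intro x hx hx1 hx2 g hg hgp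
    obtain ⟨y, hy, hy1, hy2⟩ := hmove x hx _ hpR hx1 g hg p hgp
    have h2 : y = y₀ := hfib y hy y₀ hy₀
      ⟨by rw [hy1]; exact hpR, by rw [hy2, norm_map_of_inner (hiso g hg)]; linarith⟩
      ⟨by rw [hy₁]; exact hpR, by linarith⟩ hy1 hy₁
    rw [← hy2, h2]
  have hy₀c : ∀ g ∈ G, g (ι p) = ι p → g (nr ι (y₀ - x₀)) = nr ι (y₀ - x₀) := by
    intro g hg hgp
    obtain ⟨ρ, hρ1, hρ2⟩ := exists_between hpR
    obtain ⟨y, hy, hy1, hy2⟩ := hmove y₀ hy₀ ρ hρ2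
      (subset_closure ⟨by rw [hy₁]; exact hρ1, by linarith⟩) g hg p (by rw [hy₁]; exact hgp)
    have h2 : y = y₀ := hfib y hy y₀ hy₀
      ⟨by rw [hy1]; exact hpR, by rw [hy2, norm_map_of_inner (hiso g hg)]; linarith⟩
      ⟨by rw [hy₁]; exact hpR, by linarith⟩ hy1 hy₁
    rw [← hy2, h2]
  obtain ⟨f, hf, hfe⟩ := hext p (norm_pos_iff.mp hp0) _ (inner_nr_iota ι _) hy₂ hy₀c
  obtain ⟨η, hη, hb⟩ := hf.bound
  have hgraph := hV.slice hm (EuclideanSpace.basisFun (Fin m) ℝ) ι x₀ hp0 (hcb _ hpR)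
    (contDiff_infty.mp hf.smooth 3) hf.normal hf.conf hf.harm
    (fun q hq => (hb q hq).1) (fun q hq => (hb q hq).2.1) (fun q hq => (hb q hq).2.2) hη (by
      intro x hx hx1 hx2
      obtain ⟨h2, h3⟩ := hbd _ hp0 hpR x hx hx1 hx2
      obtain ⟨g, hg, hgp⟩ := htr (pr ι (x - x₀)) p h2
      exact (hfe g hg _ _ hgp (huniq x hx hx1 h3 g hg hgp)).symm)
  refine ⟨‖p‖, hp0, f, hf.smooth, hf.normal, ?_⟩
  have hdec : ∀ x ∈ V.fst.support, x ∈ cyl ι x₀ ‖p‖ →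
      x₀ + ι (pr ι (x - x₀)) + f (pr ι (x - x₀)) = x := by
    intro x hx hxc
    rw [← hgraph x hx hxc, add_assoc, iota_pr_add_nr, add_sub_cancel]
  ext x
  constructor
  · rintro ⟨hx, hxb⟩
    exact ⟨⟨_, hdec x hx (ball_subset_cyl ι x₀ _ hxb)⟩, hxb⟩
  · rintro ⟨⟨q, rfl⟩, hxb⟩
    refine ⟨?_, hxb⟩
    have hq : ‖q‖ < ‖p‖ := by
      have h2 := (ball_subset_cyl ι x₀ _ hxb).1
      simp only [add_assoc, add_sub_cancel_left, map_add, pr_iota,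
        pr_eq_zero ι (hf.normal q), add_zero] at h2
      exact h2
    by_cases hq0 : q = 0
    · have h2 := hdec x₀ hx₀s (ball_subset_cyl ι x₀ _ (mem_ball_self hp0))
      rw [sub_self, map_zero] at h2
      change x₀ + ι q + f q ∈ _
      rw [hq0, h2]
      exact hx₀s
    · have hq1 := norm_pos_iff.mpr hq0
      obtain ⟨y, hy, hy1, hy2⟩ := hne ‖q‖ hq1 (hq.trans hpR) q rfl
      have h2 := hdec y hy ⟨by rw [hy1]; exact hq, by nlinarith⟩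
      rw [hy1] at h2
      change x₀ + ι q + f q ∈ _
      rw [h2]
      exact hy

lemma smallGraph_const {F : Type*} [NormedAddCommGroup F] [InnerProductSpace ℝ F]
    [FiniteDimensional ℝ F] {m : ℕ} (u : OrthonormalBasis (Fin m) ℝ F) (ι : F →ₗᵢ[ℝ] E) {ρ : ℝ}
    {w : E} (hw : ∀ q, ⟪w, ι q⟫ = 0) (hρ : ‖w‖ ≤ ρ) : SmallGraph u ι ρ (fun _ => w) := by
  have h1 : fderiv ℝ (fun _ : F => w) = fun _ => 0 := by ext; simp
  refine ⟨contDiff_const, fun _ q => hw q, fun p => ⟨0, le_rfl, fun a b => by simp⟩,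
    fun p => by simp [h1], 0, by simp, fun p _ => ⟨hρ, by simp, by
      rw [h1, fderiv_fun_const, Pi.zero_apply, ContinuousLinearMap.opNorm_zero, zero_div]⟩⟩

end Pool.Agent.Lib.MP_8daebb_an
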