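import Pool.Agent.Lib.MP_8daebb_an.Main

/-! Holomorphic polynomial graphs are small harmonic conformal graphs. -/

set_option linter.unusedSectionVars false

open Finset Complex
open scoped RealInnerProductSpace ContDiff

namespace Pool.Agent.Lib.MP_8daebb_an

variable {E : Type*} [NormedAddCommGroup E] [InnerProductSpace ℝ E] [FiniteDimensional ℝ E]
variable {F : Type*} [NormedAddCommGroup F] [InnerProductSpace ℝ F] [FiniteDimensional ℝ F]

/-- `z ↦ Re z • a + Im z • b` -/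
noncomputable def cm (a b : E) : ℂ →L[ℝ] E := reCLM.smulRight a + imCLM.smulRight b

lemma cm_apply (a b : E) (z : ℂ) : cm a b z = z.re • a + z.im • b := rfl

lemma norm_cm_le {a b : E} {N : ℝ} (ha : ‖a‖ ≤ N) (hb : ‖b‖ ≤ N) (z : ℂ) :
    ‖cm a b z‖ ≤ 2 * N * ‖z‖ := by
  rw [cm_apply]
  refine (norm_add_le _ _).trans ?_
  rw [norm_smul, norm_smul, Real.norm_eq_abs, Real.norm_eq_abs]
  have h1 := mul_le_mul (abs_re_le_norm z) ha (norm_nonneg _) (norm_nonneg _)
  have h2 := mul_le_mul (abs_im_le_norm z) hb (norm_nonneg _) (norm_nonneg _)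
  linarith

/-- `s ↦ (v ↦ M (s * ζ v))` -/
noncomputable def tm (M : ℂ →L[ℝ] E) (ζ : F →L[ℝ] ℂ) : ℂ →L[ℝ] (F →L[ℝ] E) :=
  (ContinuousLinearMap.compL ℝ F ℂ E M).comp
    (((ContinuousLinearMap.compL ℝ F ℂ ℂ).flip ζ).comp (ContinuousLinearMap.mul ℝ ℂ))

lemma tm_apply (M : ℂ →L[ℝ] E) (ζ : F →L[ℝ] ℂ) (s : ℂ) (v : F) : tm M ζ s v = M (s * ζ v) := rfl

lemma hasFDerivAt_mono {X : Type*} [NormedAddCommGroup X] [NormedSpace ℝ X] (M : ℂ →L[ℝ] X)
    (ζ : F →L[ℝ] ℂ) (c : ℂ) (k : ℕ) (q : F) :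
    HasFDerivAt (fun q => M (c * ζ q ^ k))
      (M.comp (((c * (k * ζ q ^ (k - 1))) • (1 : ℂ →L[ℝ] ℂ)).comp ζ)) q :=
  M.hasFDerivAt.comp q
    ((((hasDerivAt_pow k (ζ q)).const_mul c).complexToReal_fderiv).comp q ζ.hasFDerivAt)

theorem smallGraph_poly (u : OrthonormalBasis (Fin 2) ℝ F) (ι : F →ₗᵢ[ℝ] E) {ρ : ℝ} (hρ : 0 < ρ)
    (ζ : F →L[ℝ] ℂ) (hζ : ∀ a b, (ζ a).re * (ζ b).re + (ζ a).im * (ζ b).im = ⟪a, b⟫ / ρ ^ 2)
    (hu : ζ (u 1) = I * ζ (u 0)) (K : ℕ) (a b : ℕ → E) {N : ℝ} (ha : ∀ k, ‖a k‖ ≤ N)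
    (hb : ∀ k, ‖b k‖ ≤ N) (hN : 256 * ((K : ℝ) + 1) ^ 3 * N ≤ ρ)
    (han : ∀ k q, ⟪a k, ι q⟫ = 0) (hbn : ∀ k q, ⟪b k, ι q⟫ = 0)
    (hab : ∀ k l, ⟪a k, b l⟫ = 0) (haa : ∀ k l, k ≠ l → ⟪a k, a l⟫ = 0)
    (hbb : ∀ k l, k ≠ l → ⟪b k, b l⟫ = 0) (hbb' : ∀ k, k ≠ 0 → ⟪b k, b k⟫ = ⟪a k, a k⟫) :
    SmallGraph u ι ρ (fun q => ∑ k ∈ range (K + 1), cm (a k) (b k) (ζ q ^ k)) := by
  have hN0 : 0 ≤ N := (norm_nonneg _).trans (ha 0)
  have hζn : ∀ v, ‖ζ v‖ = ‖v‖ / ρ := by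
    intro v
    have h1 : ‖ζ v‖ ^ 2 = (‖v‖ / ρ) ^ 2 := by
      rw [Complex.sq_norm, normSq_apply, hζ, real_inner_self_eq_norm_sq, div_pow]
    exact (pow_left_inj₀ (norm_nonneg _) (by positivity) two_ne_zero).mp h1
  have hd1 : fderiv ℝ (fun q => ∑ k ∈ range (K + 1), cm (a k) (b k) (ζ q ^ k)) =
      fun q => ∑ k ∈ range (K + 1), tm (cm (a k) (b k)) ζ (k * ζ q ^ (k - 1)) := by
    funext q
    have h := HasFDerivAt.fun_sum (u := range (K + 1))
      fun k _ => hasFDerivAt_mono (cm (a k) (b k)) ζ 1 k q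
    simp only [one_mul] at h
    rw [h.fderiv]
    ext v
    simp [tm_apply]
  have hd2 : ∀ q v w, fderiv ℝ (fun q => ∑ k ∈ range (K + 1),
      tm (cm (a k) (b k)) ζ (k * ζ q ^ (k - 1))) q v w =
      ∑ k ∈ range (K + 1), cm (a k) (b k)
        (k * (((k - 1 : ℕ) : ℂ) * ζ q ^ (k - 1 - 1)) * ζ v * ζ w) := by
    intro q v w
    have h := HasFDerivAt.fun_sum (u := range (K + 1))
      fun k _ => hasFDerivAt_mono (tm (cm (a k) (b k)) ζ) ζ k (k - 1) q
    rw [h.fderiv]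
    simp [tm_apply]
  have hK1 : (1 : ℝ) ≤ K + 1 := by linarith [Nat.cast_nonneg (α := ℝ) K]
  refine ⟨?_, ?_, ?_, ?_, 1 / 128, by norm_num, ?_⟩
  · exact ContDiff.sum fun k _ => (cm (a k) (b k)).contDiff.comp (ζ.contDiff.pow k)
  · intro p q
    simp [sum_inner, cm_apply, inner_add_left, inner_smul_left, han, hbn]
  · intro p
    refine ⟨(∑ k ∈ range (K + 1), ⟪a k, a k⟫ * normSq (k * ζ p ^ (k - 1))) / ρ ^ 2,
      div_nonneg (sum_nonneg fun k _ => mul_nonneg real_inner_self_nonneg (normSq_nonneg _))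
        (by positivity), fun v w => ?_⟩
    rw [hd1]
    simp only [_root_.sum_apply, tm_apply, sum_inner, inner_sum]
    rw [div_mul_eq_mul_div, mul_div_assoc, ← hζ, sum_mul]
    refine sum_congr rfl fun l hl => ?_
    rw [sum_eq_single l]
    · by_cases h0 : l = 0
      · subst h0
        simp
      · simp only [cm_apply, inner_add_left, inner_add_right, inner_smul_left, inner_smul_right,
          hab, real_inner_comm (a l) (b l), hbb' l h0, conj_trivial, normSq_apply]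
        generalize (l : ℂ) * ζ p ^ (l - 1) = s
        simp only [mul_re, mul_im]
        ring
    · intro k _ hkl
      simp only [cm_apply, inner_add_left, inner_add_right, inner_smul_left, inner_smul_right,
        hab, real_inner_comm (a l) (b k), haa k l hkl, hbb k l hkl]
      simp
    · intro h
      exact absurd hl h
  · intro p
    rw [hd1, Fin.sum_univ_two, hd2, hd2, ← sum_add_distrib]
    refine sum_eq_zero fun k _ => ?_
    rw [← map_add, hu]
    convert map_zero (cm (a k) (b k))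
    linear_combination (k * (((k - 1 : ℕ) : ℂ) * ζ p ^ (k - 1 - 1)) * ζ (u 0) ^ 2) * I_mul_I
  · intro p hp
    have hz : ‖ζ p‖ ≤ 1 := by rw [hζn, div_le_one hρ]; exact hp
    have hzk : ∀ k, ‖ζ p ^ k‖ ≤ 1 := fun k => by
      rw [norm_pow]; exact pow_le_one₀ (norm_nonneg _) hz
    have hsum : ∀ (g : ℕ → E) (C : ℝ), (∀ k ∈ range (K + 1), ‖g k‖ ≤ C) →
        ‖∑ k ∈ range (K + 1), g k‖ ≤ (K + 1) * C := by
      intro g C h
      refine (norm_sum_le _ _).trans ?_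
      simpa using sum_le_card_nsmul _ _ _ h
    have hkK : ∀ k ∈ range (K + 1), ‖(k : ℂ)‖ ≤ K + 1 := by
      intro k hk
      rw [Complex.norm_natCast]
      exact_mod_cast (mem_range.mp hk).le
    have hkK' : ∀ k ∈ range (K + 1), ‖((k - 1 : ℕ) : ℂ)‖ ≤ K + 1 := fun k hk =>
      hkK _ (mem_range.mpr (by have := mem_range.mp hk; omega))
    have hp2 : (K + 1 : ℝ) ≤ (K + 1) ^ 3 := le_self_pow₀ hK1 (by norm_num)
    have hp3 : (K + 1 : ℝ) ^ 2 ≤ (K + 1) ^ 3 := pow_le_pow_right₀ hK1 (by norm_num)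
    refine ⟨?_, ?_, ?_⟩
    · refine (hsum _ (2 * N) fun k _ => ?_).trans (by nlinarith)
      refine (norm_cm_le (ha k) (hb k) _).trans ?_
      have := hzk k
      nlinarith
    · rw [hd1]
      refine ContinuousLinearMap.opNorm_le_bound _ (by norm_num) fun v => ?_
      simp only [_root_.sum_apply, tm_apply]
      refine (hsum _ (2 * N * ((K + 1) * (‖v‖ / ρ))) fun k hk => ?_).trans ?_
      · refine (norm_cm_le (ha k) (hb k) _).trans (mul_le_mul_of_nonneg_left ?_ (by positivity))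
        rw [norm_mul, norm_mul, hζn]
        refine mul_le_mul_of_nonneg_right ?_ (by positivity)
        have := mul_le_mul (hkK k hk) (hzk (k - 1)) (norm_nonneg _) (by positivity)
        linarith
      · have h1 : (K + 1 : ℝ) * (2 * N * ((K + 1) * (‖v‖ / ρ))) =
            (2 * (K + 1) ^ 2 * N / ρ) * ‖v‖ := by field_simp
        rw [h1]
        refine mul_le_mul_of_nonneg_right ?_ (norm_nonneg _)
        rw [div_le_iff₀ hρ]
        nlinarith
    · rw [hd1]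
      refine ContinuousLinearMap.opNorm_le_bound₂ _ (by positivity) fun v w => ?_
      rw [hd2]
      refine (hsum _ (2 * N * ((K + 1) * (K + 1) * (‖v‖ / ρ) * (‖w‖ / ρ))) fun k hk => ?_).trans ?_
      · refine (norm_cm_le (ha k) (hb k) _).trans (mul_le_mul_of_nonneg_left ?_ (by positivity))
        rw [norm_mul, norm_mul, norm_mul, norm_mul, hζn v, hζn w]
        refine mul_le_mul_of_nonneg_right (mul_le_mul_of_nonneg_right ?_ (by positivity))
          (by positivity)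
        refine mul_le_mul (hkK k hk) ?_ (by positivity) (by positivity)
        have := mul_le_mul (hkK' k hk) (hzk (k - 1 - 1)) (norm_nonneg _) (by positivity)
        linarith
      · have h1 : (K + 1 : ℝ) * (2 * N * ((K + 1) * (K + 1) * (‖v‖ / ρ) * (‖w‖ / ρ))) =
            (2 * (K + 1) ^ 3 * N / ρ) / ρ * ‖v‖ * ‖w‖ := by field_simp
        have h2 : 2 * ((K : ℝ) + 1) ^ 3 * N / ρ ≤ 1 / 128 := by
          rw [div_le_iff₀ hρ]
          nlinarith
        rw [h1]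
        exact mul_le_mul_of_nonneg_right (mul_le_mul_of_nonneg_right
          (div_le_div_of_nonneg_right h2 hρ.le) (norm_nonneg _)) (norm_nonneg _)

end Pool.Agent.Lib.MP_8daebb_an
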