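import Pool.Agent.Lib.MP_8daebb_an.Barrier
import Pool.Agent.Lib.MP_8daebb_an.Fiber

/-! If the slice of the support by a small cylinder lies on the graph of a harmonic conformal
map, so does the support inside the cylinder. -/

set_option linter.unusedSectionVars false

open MeasureTheory Metric Filter Topology Set Matrix
open scoped RealInnerProductSpace

namespace Pool.Agent.Lib.MP_8daebb_an

lemma frob {m : ℕ} (A : Matrix (Fin m) (Fin m) ℝ) (c : ℝ) :
    ∑ j, ∑ k, ((c • (A * Aᵀ) - 1 : Matrix (Fin m) (Fin m) ℝ) j k) ^ 2 =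
      ∑ j, ∑ k, ((c • (Aᵀ * A) - 1 : Matrix (Fin m) (Fin m) ℝ) j k) ^ 2 := by
  have h : ∀ B : Matrix (Fin m) (Fin m) ℝ, ∑ j, ∑ k, (B j k) ^ 2 = trace (B * Bᵀ) := by
    intro B
    simp [trace, mul_apply, sq]
  rw [h, h]
  simp only [transpose_sub, transpose_smul, transpose_mul, transpose_transpose, transpose_one,
    sub_mul, mul_sub, smul_mul_assoc, mul_smul_comm, Matrix.one_mul, Matrix.mul_one, trace_sub,
    trace_smul]
  have h1 : trace (A * Aᵀ) = trace (Aᵀ * A) := trace_mul_comm _ _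
  have h2 : trace (A * Aᵀ * (A * Aᵀ)) = trace (Aᵀ * A * (Aᵀ * A)) := by
    rw [Matrix.mul_assoc, trace_mul_comm]
    simp only [Matrix.mul_assoc]
  rw [h1, h2]

variable {E : Type*} [NormedAddCommGroup E] [InnerProductSpace ℝ E] [FiniteDimensional ℝ E]
variable {F : Type*} [NormedAddCommGroup F] [InnerProductSpace ℝ F] [FiniteDimensional ℝ F]

lemma trace_bound {m : ℕ} (u : OrthonormalBasis (Fin m) ℝ F) (ι : F →ₗᵢ[ℝ] E) (e : Fin m → E)
    (he : Orthonormal ℝ e) (L : F →L[ℝ] E) (hL : ∀ a b, ⟪L a, ι b⟫ = 0) {lam η ν β : ℝ}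
    (hlam : 0 ≤ lam) (hconf : ∀ a b, ⟪L a, L b⟫ = lam * ⟪a, b⟫) (hη : ‖L‖ ≤ η)
    (hν : ∀ i, ‖nr ι (e i) - L (pr ι (e i))‖ ≤ ν) (B : F →L[ℝ] F →L[ℝ] ℝ)
    (hB : ∑ j, B (u j) (u j) = 0) (hβ : ∀ j k, |B (u j) (u k)| ≤ β) :
    |∑ i, B (pr ι (e i)) (pr ι (e i))| ≤ m ^ 3 * β * (2 * η * ν + ν ^ 2) := by
  rcases Nat.eq_zero_or_pos m with rfl | hm
  · simp
  have hβ0 : 0 ≤ β := (abs_nonneg _).trans (hβ ⟨0, hm⟩ ⟨0, hm⟩)
  have hν0 : 0 ≤ ν := (norm_nonneg _).trans (hν ⟨0, hm⟩)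
  have hη0 : 0 ≤ η := (norm_nonneg _).trans hη
  let v : Fin m → F := fun i => pr ι (e i)
  let n : Fin m → E := fun i => nr ι (e i) - L (v i)
  let A : Matrix (Fin m) (Fin m) ℝ := fun j i => ⟪u j, v i⟫
  have hv : ∀ i, ‖v i‖ ≤ 1 := fun i => (norm_pr_le ι _).trans (he.1 i).le
  have hLv : ∀ i, ‖L (v i)‖ ≤ η := fun i => (L.le_opNorm _).trans (by
    have := hv i
    have := norm_nonneg L
    nlinarith)
  have hn0 : ∀ i b, ⟪n i, ι b⟫ = 0 := fun i b => by
    simp only [n, inner_sub_left, inner_nr_iota, hL, sub_zero]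
  have hE : ∀ i k, |((1 + lam) • (Aᵀ * A) - 1 : Matrix (Fin m) (Fin m) ℝ) i k| ≤
      2 * η * ν + ν ^ 2 := by
    intro i k
    have h1 : (Aᵀ * A) i k = ⟪v i, v k⟫ := by
      rw [mul_apply, ← u.sum_inner_mul_inner (v i) (v k)]
      refine Finset.sum_congr rfl fun j _ => ?_
      simp only [A, transpose_apply, real_inner_comm (u j) (v i)]
    have h2 : ∀ i, e i = ι (v i) + (L (v i) + n i) := fun i => by
      simp only [n, v, add_sub_cancel, iota_pr_add_nr]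
    have h3 : (1 : Matrix (Fin m) (Fin m) ℝ) i k = ⟪e i, e k⟫ := by
      rw [orthonormal_iff_ite.mp he, one_apply]
    have h4 : ⟪e i, e k⟫ = (1 + lam) * ⟪v i, v k⟫ +
        (⟪L (v i), n k⟫ + ⟪n i, L (v k)⟫ + ⟪n i, n k⟫) := by
      conv_lhs => rw [h2 i, h2 k]
      simp only [inner_add_left, inner_add_right, ι.inner_map_map, hL, hn0, hconf,
        real_inner_comm (L (v k)) (ι (v i)), real_inner_comm (n k) (ι (v i))]
      ring
    rw [Matrix.sub_apply, Matrix.smul_apply, h1, h3, h4, smul_eq_mul, sub_add_cancel_left,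
      abs_neg]
    have b1 := (abs_real_inner_le_norm (L (v i)) (n k)).trans
      (mul_le_mul (hLv i) (hν k) (norm_nonneg _) hη0)
    have b2 := (abs_real_inner_le_norm (n i) (L (v k))).trans
      (mul_le_mul (hν i) (hLv k) (norm_nonneg _) hν0)
    have b3 := (abs_real_inner_le_norm (n i) (n k)).trans
      (mul_le_mul (hν i) (hν k) (norm_nonneg _) hν0)
    refine (abs_add_three _ _ _).trans ?_
    nlinarith
  set D := 2 * η * ν + ν ^ 2 with hD
  have hD0 : 0 ≤ D := by positivity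
  have hS : ∀ j k, |((1 + lam) • (A * Aᵀ) - 1 : Matrix (Fin m) (Fin m) ℝ) j k| ≤ m * D := by
    intro j k
    have h1 : (((1 + lam) • (A * Aᵀ) - 1 : Matrix (Fin m) (Fin m) ℝ) j k) ^ 2 ≤
        ∑ j, ∑ k, (((1 + lam) • (A * Aᵀ) - 1 : Matrix (Fin m) (Fin m) ℝ) j k) ^ 2 :=
      (Finset.single_le_sum (f := fun k =>
        (((1 + lam) • (A * Aᵀ) - 1 : Matrix (Fin m) (Fin m) ℝ) j k) ^ 2)
        (fun _ _ => sq_nonneg _) (Finset.mem_univ k)).trans
        (Finset.single_le_sum (f := fun j => ∑ k,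
          (((1 + lam) • (A * Aᵀ) - 1 : Matrix (Fin m) (Fin m) ℝ) j k) ^ 2)
          (fun _ _ => Finset.sum_nonneg fun _ _ => sq_nonneg _) (Finset.mem_univ j))
    rw [frob] at h1
    have h2 : ∑ j, ∑ k, (((1 + lam) • (Aᵀ * A) - 1 : Matrix (Fin m) (Fin m) ℝ) j k) ^ 2 ≤
        ∑ _j : Fin m, ∑ _k : Fin m, D ^ 2 :=
      Finset.sum_le_sum fun j _ => Finset.sum_le_sum fun k _ => sq_le_sq' (abs_le.mp (hE j k)).1
        (abs_le.mp (hE j k)).2
    simp only [Finset.sum_const, Finset.card_univ, Fintype.card_fin, nsmul_eq_mul] at h2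
    exact abs_le_of_sq_le_sq (by nlinarith) (by positivity)
  have hsum : (1 + lam) * ∑ i, B (v i) (v i) =
      ∑ j, ∑ k, ((1 + lam) • (A * Aᵀ) - 1 : Matrix (Fin m) (Fin m) ℝ) j k * B (u j) (u k) := by
    have h1 : ∀ i, B (v i) (v i) = ∑ j, ∑ k, A j i * A k i * B (u j) (u k) := by
      intro i
      conv_lhs => rw [← u.sum_repr' (v i)]
      simp only [map_sum, map_smul, _root_.sum_apply, _root_.smul_apply,
        smul_eq_mul, Finset.mul_sum, A]
      rw [Finset.sum_comm]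
      refine Finset.sum_congr rfl fun j _ => Finset.sum_congr rfl fun k _ => by ring
    have h2 : ∑ j, ∑ k, (1 : Matrix (Fin m) (Fin m) ℝ) j k * B (u j) (u k) = 0 := by
      rw [← hB]
      refine Finset.sum_congr rfl fun j _ => ?_
      simp [one_apply]
    simp only [Matrix.sub_apply, Matrix.smul_apply, smul_eq_mul, sub_mul, Finset.sum_sub_distrib,
      h2, sub_zero, h1, mul_apply, transpose_apply, Finset.mul_sum, Finset.sum_mul]
    rw [Finset.sum_comm]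
    refine Finset.sum_congr rfl fun j _ => ?_
    rw [Finset.sum_comm]
    refine Finset.sum_congr rfl fun k _ => Finset.sum_congr rfl fun i _ => by ring
  have hfin : |(1 + lam) * ∑ i, B (v i) (v i)| ≤ ∑ _j : Fin m, ∑ _k : Fin m, m * D * β := by
    rw [hsum]
    refine (Finset.abs_sum_le_sum_abs _ _).trans (Finset.sum_le_sum fun j _ => ?_)
    refine (Finset.abs_sum_le_sum_abs _ _).trans (Finset.sum_le_sum fun k _ => ?_)
    rw [abs_mul]
    exact mul_le_mul (hS j k) (hβ j k) (abs_nonneg _) (by positivity)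
  simp only [Finset.sum_const, Finset.card_univ, Fintype.card_fin, nsmul_eq_mul] at hfin
  rw [abs_mul, abs_of_pos (by positivity : 0 < 1 + lam)] at hfin
  have := abs_nonneg (∑ i, B (v i) (v i))
  change |∑ i, B (v i) (v i)| ≤ _
  nlinarith

lemma final_ineq {M ρ η γ ν ψ κ T S : ℝ} (hM : 1 ≤ M) (hρ : 0 < ρ) (hη : 0 ≤ η)
    (hη' : 16 * M ^ 3 * η ≤ 1) (hγ : 0 < γ) (hγ' : γ ≤ 2 * ρ) (hν : 0 ≤ ν) (hψ : 1 ≤ ψ)
    (hψ' : ψ ≤ 2) (hκ : κ = 1 / (128 * M * ρ ^ 2))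
    (hT : |T| ≤ M ^ 3 * (γ * (η / ρ)) * (2 * η * ν + ν ^ 2)) (hS : |S| ≤ M * (2 * ρ * (γ * ν))) :
    0 < ψ * (ν ^ 2 - T) + 4 * κ * S + κ * γ ^ 2 * M := by
  obtain ⟨a, rfl⟩ : ∃ a, γ = a * ρ := ⟨γ / ρ, by field_simp⟩
  have ha : 0 < a := (mul_pos_iff_of_pos_right hρ).mp hγ
  have ha' : a ≤ 2 := le_of_mul_le_mul_right hγ' hρ
  have hM3 : 1 ≤ M ^ 3 := one_le_pow₀ hM
  have h1 : M ^ 3 * (a * ρ * (η / ρ)) = a * (M ^ 3 * η) := by field_simp
  rw [h1] at hT
  have h2 : κ * (a * ρ) ^ 2 * M = a ^ 2 / 128 := by rw [hκ]; field_simp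
  have h3 : |4 * κ * S| ≤ a * ν / 16 := by
    have hκ0 : 0 < κ := by rw [hκ]; positivity
    rw [abs_mul, abs_of_pos (by positivity : 0 < 4 * κ)]
    refine (mul_le_mul_of_nonneg_left hS (by positivity)).trans (le_of_eq ?_)
    rw [hκ]
    field_simp
    ring
  have h4 : M ^ 3 * η ≤ 1 / 16 := by linarith
  have h5 : η ≤ 1 / 16 := by nlinarith
  have h6 : |T| ≤ a * ν / 128 + ν ^ 2 / 8 := by
    refine hT.trans ?_
    have h7 : a * (M ^ 3 * η) ≤ a / 16 := by nlinarith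
    have h8 : 2 * η * ν + ν ^ 2 ≤ ν / 8 + ν ^ 2 := by nlinarith
    refine (mul_le_mul h7 h8 (by positivity) (by positivity)).trans ?_
    nlinarith [sq_nonneg ν]
  have h9 : ψ * T ≤ 2 * |T| := by
    have := le_abs_self T
    have := abs_nonneg T
    nlinarith
  have h10 := neg_abs_le (4 * κ * S)
  rw [h2]
  nlinarith [sq_nonneg (ν - a / 16), sq_nonneg ν, mul_pos ha ha]

variable [MeasurableSpace E] [BorelSpace E]
variable {m : ℕ} {U : Set E} {V : Measure (E × (E →L[ℝ] E))}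

theorem IsStationaryVarifold.barrier' (hV : IsStationaryVarifold m U V) {W : Set E}
    (hW : IsOpen W) (hWc : IsCompact (closure W)) (hWU : W ⊆ U) {g : E → ℝ}
    (hg : ContDiff ℝ 2 g) {ε : ℝ}
    (hb : ∀ x ∈ V.fst.support, x ∈ closure W → x ∉ W → g x < ε)
    (hconv : ∀ x ∈ V.fst.support, x ∈ W → ε < g x → ∀ e : Fin m → E, Orthonormal ℝ e →
      0 < ∑ i, fderiv ℝ (fun y => fderiv ℝ g y (e i)) x (e i)) :
    ∀ x ∈ V.fst.support, x ∈ W → g x ≤ ε := by
  let b := stdOrthonormalBasis ℝ E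
  let T : (E →L[ℝ] ℝ) →L[ℝ] E := ∑ k, (ContinuousLinearMap.apply ℝ ℝ (b k)).smulRight (b k)
  have hT : ∀ (φ : E →L[ℝ] ℝ) (v : E), ⟪T φ, v⟫ = φ v := by
    intro φ v
    conv_rhs => rw [← b.sum_repr' v]
    simp only [T, _root_.sum_apply, ContinuousLinearMap.smulRight_apply,
      ContinuousLinearMap.apply_apply, sum_inner, inner_smul_left, map_sum, map_smul, smul_eq_mul,
      conj_trivial]
    exact Finset.sum_congr rfl fun k _ => mul_comm _ _
  have hd : ContDiff ℝ 1 (fderiv ℝ g) := hg.fderiv_right (by norm_num)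
  refine hV.barrier hW hWc hWU (Y := fun y => T (fderiv ℝ g y)) (hg.of_le (by norm_num))
    (T.contDiff.comp hd) (fun x v => (hT _ _).symm) hb ?_
  intro x hx hxW hgx e he
  have h1 := hconv x hx hxW hgx e he
  have hdx := (hd.differentiable one_ne_zero x).hasFDerivAt
  convert h1 using 2 with i _
  have h2 := T.hasFDerivAt.comp x hdx
  have h3 := (ContinuousLinearMap.apply ℝ ℝ (e i)).hasFDerivAt.comp x hdx
  have h4 : fderiv ℝ (fun y => T (fderiv ℝ g y)) x = _ := h2.fderiv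
  have h5 : fderiv ℝ (fun y => fderiv ℝ g y (e i)) x = _ := h3.fderiv
  rw [h4, h5, real_inner_comm, ContinuousLinearMap.comp_apply, hT]
  rfl

theorem IsStationaryVarifold.slice_nonempty (hV : IsStationaryVarifold m U V) (hm : 0 < m)
    {W : Set E} (hW : IsOpen W) (hWc : IsCompact (closure W)) (hWU : W ⊆ U) {x₀ : E}
    (hx₀ : x₀ ∈ V.fst.support) (hx₀W : x₀ ∈ W) :
    ∃ x ∈ V.fst.support, x ∈ closure W ∧ x ∉ W := by
  by_contra hcon
  push Not at hcon
  have hd : ∀ x, HasFDerivAt (fun y : E => ‖y‖ ^ 2) (2 • innerSL ℝ x) x := fun x =>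
    (hasStrictFDerivAt_norm_sq x).hasFDerivAt
  have := hV.barrier hW hWc hWU (g := fun y => ‖y‖ ^ 2) (Y := fun y => (2 : ℝ) • y) (ε := -1)
    (contDiff_norm_sq ℝ) (contDiff_id.const_smul _) (fun x v => by
      rw [(hd x).fderiv]; simp [inner_smul_left])
    (fun x h1 h2 h3 => absurd (hcon x h1 h2) h3) (fun x _ _ _ e he => by
      have h1 : fderiv ℝ (fun y : E => (2 : ℝ) • y) x = (2 : ℝ) • ContinuousLinearMap.id ℝ E :=
        ((hasFDerivAt_id x).const_smul (2 : ℝ)).fderiv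
      rw [h1]
      have : Nonempty (Fin m) := ⟨⟨0, hm⟩⟩
      refine Finset.sum_pos (fun i _ => ?_) Finset.univ_nonempty
      simp [inner_smul_right, he.1 i]) x₀ hx₀ hx₀W
  nlinarith [sq_nonneg ‖x₀‖]

theorem IsStationaryVarifold.slice (hV : IsStationaryVarifold m U V) (hm : 0 < m)
    (u : OrthonormalBasis (Fin m) ℝ F) (ι : F →ₗᵢ[ℝ] E) (x₀ : E) {ρ η : ℝ} (hρ : 0 < ρ)
    (hU : closedBall x₀ (2 * ρ) ⊆ U) {f : F → E} (hf : ContDiff ℝ 3 f)
    (hn : ∀ p q, ⟪f p, ι q⟫ = 0)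
    (hconf : ∀ p, ∃ lam, 0 ≤ lam ∧ ∀ a b, ⟪fderiv ℝ f p a, fderiv ℝ f p b⟫ = lam * ⟪a, b⟫)
    (hharm : ∀ p, ∑ j, fderiv ℝ (fderiv ℝ f) p (u j) (u j) = 0)
    (h0 : ∀ p, ‖p‖ ≤ ρ → ‖f p‖ ≤ ρ) (h1 : ∀ p, ‖p‖ ≤ ρ → ‖fderiv ℝ f p‖ ≤ η)
    (h2 : ∀ p, ‖p‖ ≤ ρ → ‖fderiv ℝ (fderiv ℝ f) p‖ ≤ η / ρ) (hη : 16 * (m : ℝ) ^ 3 * η ≤ 1)
    (hb : ∀ x ∈ V.fst.support, x ∈ closure (cyl ι x₀ ρ) → x ∉ cyl ι x₀ ρ →
      nr ι (x - x₀) = f (pr ι (x - x₀))) :
    ∀ x ∈ V.fst.support, x ∈ cyl ι x₀ ρ → nr ι (x - x₀) = f (pr ι (x - x₀)) := by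
  have hη0 : 0 ≤ η := (norm_nonneg _).trans (h1 0 (by simpa using hρ.le))
  have hM : (1 : ℝ) ≤ m := by exact_mod_cast hm
  obtain ⟨κ, hκ⟩ : ∃ κ : ℝ, κ = 1 / (128 * m * ρ ^ 2) := ⟨_, rfl⟩
  have hκ0 : 0 < κ := by rw [hκ]; positivity
  let G : E → E := fun x => nr ι (x - x₀) - f (pr ι (x - x₀))
  let g : E → ℝ := fun x => (1 + κ * ‖x - x₀‖ ^ 2) * ‖G x‖ ^ 2
  have hsub : ContDiff ℝ 2 fun x : E => x - x₀ := contDiff_id.sub contDiff_const
  have hG : ContDiff ℝ 2 G := ((nr ι).contDiff.comp hsub).sub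
    ((hf.of_le (by norm_num)).comp ((pr ι).contDiff.comp hsub))
  have hg : ContDiff ℝ 2 g :=
    (contDiff_const.add (contDiff_const.mul (hsub.norm_sq ℝ))).mul (hG.norm_sq ℝ)
  have hfd : Differentiable ℝ f := hf.differentiable (by norm_num)
  have hfd2 : Differentiable ℝ (fderiv ℝ f) :=
    (hf.fderiv_right (m := 1) (by norm_num)).differentiable one_ne_zero
  have hLn : ∀ p a b, ⟪fderiv ℝ f p a, ι b⟫ = 0 := by
    intro p a b
    have h3 := (hfd p).hasFDerivAt.inner ℝ (hasFDerivAt_const (ι b) p)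
    have h4 : (fun p => ⟪f p, ι b⟫) = fun _ => (0 : ℝ) := funext fun p => hn p b
    rw [h4] at h3
    have h5 := congrArg (fun φ => φ a) (h3.unique (hasFDerivAt_const 0 p))
    simpa using h5
  have hds : ∀ x, HasFDerivAt (fun x : E => x - x₀) (ContinuousLinearMap.id ℝ E) x := fun x =>
    (hasFDerivAt_id x).sub_const x₀
  have hdp : ∀ x, HasFDerivAt (fun x : E => pr ι (x - x₀)) (pr ι) x := fun x => by
    have := (pr ι).hasFDerivAt.comp x (hds x)
    rwa [ContinuousLinearMap.comp_id] at this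
  have hdG : ∀ x, HasFDerivAt G (nr ι - (fderiv ℝ f (pr ι (x - x₀))).comp (pr ι)) x := fun x => by
    have h3 : HasFDerivAt (fun x : E => nr ι (x - x₀)) (nr ι) x := by
      have := (nr ι).hasFDerivAt.comp x (hds x)
      rwa [ContinuousLinearMap.comp_id] at this
    exact h3.sub ((hfd _).hasFDerivAt.comp x (hdp x))
  have hdg : ∀ x v, fderiv ℝ g x v =
      (1 + κ * ‖x - x₀‖ ^ 2) * (2 * ⟪G x, nr ι v - fderiv ℝ f (pr ι (x - x₀)) (pr ι v)⟫) +
        ‖G x‖ ^ 2 * (κ * (2 * ⟪x - x₀, v⟫)) := by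
    intro x v
    have h3 := (((hds x).norm_sq.const_mul κ).const_add 1).mul (hdG x).norm_sq
    have h4 : fderiv ℝ g x = _ := h3.fderiv
    rw [h4]
    simp only [_root_.add_apply, _root_.smul_apply, ContinuousLinearMap.comp_apply, smul_eq_mul,
      ContinuousLinearMap.id_apply, innerSL_apply_apply, _root_.sub_apply, nsmul_eq_mul, Nat.cast_ofNat]
  have key : ∀ ε > 0, ∀ x ∈ V.fst.support, x ∈ cyl ι x₀ ρ → g x ≤ ε := by
    intro ε hε
    refine hV.barrier' (isOpen_cyl ι x₀ ρ) ((isCompact_closedBall x₀ (2 * ρ)).of_isClosed_subset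
      isClosed_closure (closure_cyl' ι x₀ ρ))
      ((cyl_subset ι x₀ ρ).trans (ball_subset_closedBall.trans hU)) hg ?_ ?_
    · intro x hx hx1 hx2
      simp only [g, G, hb x hx hx1 hx2, sub_self, norm_zero]
      simpa using hε
    intro x _ hx hgx e he
    set p := pr ι (x - x₀) with hp
    set L := fderiv ℝ f p with hL
    set H := fderiv ℝ (fderiv ℝ f) p with hH
    let n : Fin m → E := fun i => nr ι (e i) - L (pr ι (e i))
    have hsec : ∀ i, fderiv ℝ (fun y => fderiv ℝ g y (e i)) x (e i) =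
        2 * ((1 + κ * ‖x - x₀‖ ^ 2) * (‖n i‖ ^ 2 - ⟪G x, H (pr ι (e i)) (pr ι (e i))⟫) +
          4 * κ * (⟪x - x₀, e i⟫ * ⟪G x, n i⟫) + κ * ‖G x‖ ^ 2) := by
      intro i
      have h3 : HasFDerivAt (fun y => fderiv ℝ f (pr ι (y - x₀)) (pr ι (e i)))
          ((ContinuousLinearMap.apply ℝ E (pr ι (e i))).comp (H.comp (pr ι))) x :=
        (ContinuousLinearMap.apply ℝ E (pr ι (e i))).hasFDerivAt.comp x
          ((hfd2 p).hasFDerivAt.comp x (hdp x))
      have h4 := ((((hds x).norm_sq.const_mul κ).const_add 1).mul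
        (((hdG x).inner ℝ (h3.const_sub (nr ι (e i)))).const_mul 2)).add
        ((hdG x).norm_sq.mul ((((hds x).inner ℝ (hasFDerivAt_const (e i) x)).const_mul 2).const_mul κ))
      have h5 : (fun y => fderiv ℝ g y (e i)) = _ := funext fun y => hdg y (e i)
      have h6 : fderiv ℝ (fun y => fderiv ℝ g y (e i)) x = _ :=
        (congrArg (fun φ => fderiv ℝ φ x) h5).trans h4.fderiv
      have h7 : ⟪e i, e i⟫ = 1 := by rw [real_inner_self_eq_norm_sq, he.1 i]; norm_num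
      rw [h6]
      simp only [_root_.add_apply, _root_.smul_apply, ContinuousLinearMap.comp_apply, smul_eq_mul,
        ContinuousLinearMap.id_apply, innerSL_apply_apply, fderivInnerCLM_apply,
        ContinuousLinearMap.prod_apply, ContinuousLinearMap.apply_apply, _root_.neg_apply, _root_.sub_apply,
        inner_neg_right, _root_.zero_apply, inner_zero_right, zero_add, h7, nsmul_eq_mul,
        real_inner_self_eq_norm_sq, n, ← hp, ← hL]
      push_cast
      ring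
    have hγ : 0 < ‖G x‖ := by
      rw [norm_pos_iff]
      intro h3
      simp only [g, h3, norm_zero] at hgx
      simp at hgx
      linarith
    have hγ' : ‖G x‖ ≤ 2 * ρ := (norm_sub_le _ _).trans (by linarith [hx.2, h0 p hx.1.le])
    have hxx : ‖x - x₀‖ ≤ 2 * ρ := by
      have := cyl_subset ι x₀ ρ hx
      rw [mem_ball, dist_eq_norm] at this
      exact this.le
    let ν := Real.sqrt (∑ i, ‖n i‖ ^ 2)
    have hν2 : ν ^ 2 = ∑ i, ‖n i‖ ^ 2 :=
      Real.sq_sqrt (Finset.sum_nonneg fun _ _ => sq_nonneg _)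
    have hν : ∀ i, ‖n i‖ ≤ ν := fun i => Real.le_sqrt_of_sq_le
      (Finset.single_le_sum (f := fun i => ‖n i‖ ^ 2) (fun _ _ => sq_nonneg _) (Finset.mem_univ i))
    obtain ⟨lam, hlam, hc⟩ := hconf p
    let B : F →L[ℝ] F →L[ℝ] ℝ :=
      (ContinuousLinearMap.compL ℝ F E ℝ (innerSL ℝ (G x))).comp H
    have hB : ∀ a b, B a b = ⟪G x, H a b⟫ := fun a b => rfl
    have hT := trace_bound u ι e he L (hLn p) hlam hc (h1 p hx.1.le) hν B
      (by simp only [hB]; rw [← inner_sum, hharm p, inner_zero_right])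
      (β := ‖G x‖ * (η / ρ)) (fun j k => by
        rw [hB]
        refine (abs_real_inner_le_norm _ _).trans (mul_le_mul_of_nonneg_left ?_ hγ.le)
        have := H.le_opNorm₂ (u j) (u k)
        rw [u.orthonormal.1 j, u.orthonormal.1 k, mul_one, mul_one] at this
        exact this.trans (h2 p hx.1.le))
    have hS : |∑ i, ⟪x - x₀, e i⟫ * ⟪G x, n i⟫| ≤ m * (2 * ρ * (‖G x‖ * ν)) := by
      refine (Finset.abs_sum_le_sum_abs _ _).trans ?_
      have : ∀ i ∈ Finset.univ, |⟪x - x₀, e i⟫ * ⟪G x, n i⟫| ≤ 2 * ρ * (‖G x‖ * ν) := by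
        intro i _
        rw [abs_mul]
        refine mul_le_mul ((abs_real_inner_le_norm _ _).trans ?_)
          ((abs_real_inner_le_norm _ _).trans ?_) (abs_nonneg _) (by positivity)
        · rw [he.1 i, mul_one]; exact hxx
        · exact mul_le_mul_of_nonneg_left (hν i) hγ.le
      simpa using Finset.sum_le_card_nsmul _ _ _ this
    have hψ : 1 + κ * ‖x - x₀‖ ^ 2 ≤ 2 := by
      have h3 : κ * ‖x - x₀‖ ^ 2 ≤ κ * (2 * ρ) ^ 2 := by gcongr
      have h4 : κ * (2 * ρ) ^ 2 = 1 / (32 * m) := by rw [hκ]; field_simp; ring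
      have h5 : 1 / (32 * (m : ℝ)) ≤ 1 := by rw [div_le_one (by positivity)]; linarith
      linarith
    have hfin := final_ineq hM hρ hη0 hη hγ hγ' (Real.sqrt_nonneg _)
      (le_add_of_nonneg_right (by positivity)) hψ hκ hT hS
    rw [Finset.sum_congr rfl fun i _ => hsec i, ← Finset.mul_sum, Finset.sum_add_distrib,
      Finset.sum_add_distrib, ← Finset.mul_sum, ← Finset.mul_sum, Finset.sum_sub_distrib, ← hν2]
    simp only [Finset.sum_const, Finset.card_univ, Fintype.card_fin, nsmul_eq_mul, hB] at hfin ⊢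
    linarith
  intro x hx hxC
  have h3 : g x ≤ 0 := le_of_forall_pos_le_add fun ε hε => by simpa using key ε hε x hx hxC
  have h4 : ‖G x‖ ^ 2 ≤ 0 := by
    have h5 : 0 < 1 + κ * ‖x - x₀‖ ^ 2 := by positivity
    by_contra h6
    exact absurd h3 (not_le.mpr (mul_pos h5 (not_le.mp h6)))
  have h7 : G x = 0 := by
    rw [← norm_eq_zero]
    exact pow_eq_zero_iff two_ne_zero |>.mp (le_antisymm h4 (sq_nonneg _))
  exact sub_eq_zero.mp h7

end Pool.Agent.Lib.MP_8daebb_an
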